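import Pool.Agent.U188.CT.Tow

/-!
# The points of `y² + D y = x³` over the fields `ℚ(ω, ∛l : l ∈ M)`
-/

set_option autoImplicit false
set_option linter.all false

open IsDedekindDomain NumberField WeierstrassCurve

namespace Pool.Agent.U188.CT

open Pool.Agent.TH954
open Pool.Agent.R419.ST
open Pool.Agent.Y696.CTK (ED)

open scoped Classical

section

variable {F : Type} [Field F] {W : WeierstrassCurve F}

/-- the 3-division polynomial -/
lemma three_tor (hW : Short W) (h4 : W.a₄ = 0) (h2 : (2 : F) ≠ 0) (h3 : (3 : F) ≠ 0) {x y : F}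
    (n : W.toAffine.Nonsingular x y) (h : 3 • Affine.Point.some x y n = (0 : W.toAffine.Point)) :
    x = 0 ∨ x ^ 3 = -4 * W.a₆ := by
  have he := hW.eqn n
  rw [h4, zero_mul, add_zero] at he
  by_cases hy : y = 0
  · exfalso
    have h5 : Affine.Point.some x y n + Affine.Point.some x y n = (0 : W.toAffine.Point) := by
      refine Affine.Point.add_of_Y_eq rfl ?_
      rw [hW.negY, hy, neg_zero]
    have h6 : 3 • Affine.Point.some x y n = (Affine.Point.some x y n + Affine.Point.some x y n) +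
        Affine.Point.some x y n := by abel
    rw [h6, h5, zero_add] at h
    exact Affine.Point.some_ne_zero n h
  obtain ⟨X, Y, n', h5, hX, hY⟩ := dbl hW h4 h2 n hy
  have h6 : Affine.Point.some X Y n' = -Affine.Point.some x y n := by
    rw [← h5, eq_neg_iff_add_eq_zero, ← h]
    abel
  rw [Affine.Point.neg_some, Affine.Point.some.injEq] at h6
  have hXx : (X - x) * (4 * y ^ 2) = -(3 * x * (x ^ 3 + 4 * W.a₆)) := by
    rw [hX]
    field_simp
    linear_combination (-48 * x) * he
  rw [h6.1, sub_self, zero_mul] at hXx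
  have h7 : 3 * x * (x ^ 3 + 4 * W.a₆) = 0 := by linear_combination hXx
  rcases mul_eq_zero.1 h7 with h8 | h8
  · left
    exact (mul_eq_zero.1 h8).resolve_left h3
  · right
    linear_combination h8

/-- a point of which the triple has `x = 0` gives a cube root -/
lemma three_root (hW : Short W) (h4 : W.a₄ = 0) (h2 : (2 : F) ≠ 0) (h3 : (3 : F) ≠ 0) {x y : F}
    (n : W.toAffine.Nonsingular x y) (hy : y ≠ 0) {Y : F} {n' : W.toAffine.Nonsingular 0 Y}
    (h : 3 • Affine.Point.some x y n = (Affine.Point.some 0 Y n' : W.toAffine.Point)) :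
    ∃ x₁ : F, x₁ ^ 3 = -4 * W.a₆ := by
  have he := hW.eqn n
  rw [h4, zero_mul, add_zero] at he
  rcases tpl hW h4 h2 n hy with h5 | ⟨hψ, X, Y', n'', h5, hX⟩
  · rw [h5] at h
    exact absurd h.symm (Affine.Point.some_ne_zero n')
  · rw [h5, Affine.Point.some.injEq] at h
    rw [h.1] at hX
    have hx0 : x ≠ 0 := by
      rintro rfl
      apply hψ
      ring
    have hc0 : x ^ 3 + 4 * W.a₆ ≠ 0 := by
      intro h0
      apply hψ
      rw [h0, mul_zero]
    refine ⟨-(x ^ 3 + 4 * W.a₆) / (3 * x ^ 2), ?_⟩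
    have key : ((8 * y ^ 3 / (3 * x * (x ^ 3 + 4 * W.a₆)) - 3 * x ^ 2 / (2 * y)) ^ 2 -
        ((3 * x ^ 2 / (2 * y)) ^ 2 - 2 * x) - x) * (9 * x ^ 2 * (x ^ 3 + 4 * W.a₆) ^ 2) =
        64 * y ^ 6 - 72 * x ^ 3 * y ^ 2 * (x ^ 3 + 4 * W.a₆) + 9 * x ^ 3 * (x ^ 3 + 4 * W.a₆) ^ 2 := by
      generalize hc : x ^ 3 + 4 * W.a₆ = c at hc0
      field_simp
      ring
    rw [← hX, zero_mul] at key
    have h30 : (3 * x ^ 2) ^ 3 ≠ 0 := pow_ne_zero _ (mul_ne_zero h3 (pow_ne_zero _ hx0))
    rw [div_pow, div_eq_iff h30]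
    linear_combination key + (64 * (y ^ 4 + y ^ 2 * (x ^ 3 + W.a₆) + (x ^ 3 + W.a₆) ^ 2) -
      72 * x ^ 3 * (x ^ 3 + 4 * W.a₆)) * he

end

section

variable {L : Type} [NormedField L] [IsUltrametricDist L]

/-- `-D²` is not a cube -/
lemma noncube {lam : L} (h : Three L) (hL : IsLoc lam) {D : ℕ} (hD : ¬ 3 ∣ D) (h1 : D % 9 ≠ 1)
    (h8 : D % 9 ≠ 8) (x : L) : x ^ 3 ≠ -(D : L) ^ 2 := by
  intro hx
  have hDn : ‖(D : L)‖ = 1 := by
    have := h.unit (D : ℤ) (by exact_mod_cast hD)
    exact_mod_cast this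
  have hxn : ‖x‖ = 1 := by
    have e : ‖x‖ ^ 3 = 1 := by rw [← norm_pow, hx, norm_neg, norm_pow, hDn, one_pow]
    exact (pow_eq_one_iff_of_nonneg (norm_nonneg _) (by norm_num)).1 e
  have hl3 : lam ^ 3 = -3 * lam := by linear_combination lam * hL.sq
  have key : ∀ ε : ℤ, (ε = 1 ∨ ε = -1) → ‖x - (ε : L)‖ < 1 → (9 : ℤ) ∣ (D : ℤ) ^ 2 + ε := by
    intro ε hε hxε
    have hε2 : ((ε : L)) ^ 2 = 1 := by
      rcases hε with rfl | rfl <;> norm_num
    have hεn : ‖(ε : L)‖ ≤ 1 := by
      rcases hε with rfl | rfl <;> simp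
    obtain ⟨u, hu⟩ : ∃ u, x - (ε : L) = lam * u := ⟨(x - ε) / lam, by field_simp [hL.lam_ne]⟩
    have hu1 : ‖u‖ ≤ 1 := by
      have h5 := hL.disc _ hxε
      rw [hu, norm_mul] at h5
      by_contra hcon
      rw [not_le] at hcon
      nlinarith [hL.pos]
    have hx' : x = ε + lam * u := by rw [← hu]; ring
    have e1 : x ^ 3 - (ε : L) = -(3 * lam * (u ^ 3 - u)) - 9 * ε * u ^ 2 := by
      rw [hx']
      linear_combination (ε + 3 * lam * u : L) * hε2 + u ^ 3 * hl3 + 3 * ε * u ^ 2 * hL.sq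
    have h9 : ‖(9 : L)‖ = ‖lam‖ ^ 4 := by
      have : (9 : L) = 3 ^ 2 := by norm_num
      rw [this, norm_pow, hL.three]
      ring
    have h6 : ‖x ^ 3 - (ε : L)‖ ≤ ‖(9 : L)‖ := by
      rw [e1]
      refine usub ?_ ?_
      · rw [norm_neg, norm_mul, norm_mul, hL.three, h9]
        have := hL.disc _ (res_cube hL.res hu1)
        calc ‖lam‖ ^ 2 * ‖lam‖ * ‖u ^ 3 - u‖ ≤ ‖lam‖ ^ 2 * ‖lam‖ * ‖lam‖ := by gcongr
          _ = ‖lam‖ ^ 4 := by ring
      · rw [norm_mul, norm_mul, norm_pow]
        have h7 : ‖u‖ ^ 2 ≤ 1 := pow_le_one₀ (norm_nonneg _) hu1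
        have h8 : ‖(ε : L)‖ * ‖u‖ ^ 2 ≤ 1 := mul_le_one₀ hεn (by positivity) h7
        calc ‖(9 : L)‖ * ‖(ε : L)‖ * ‖u‖ ^ 2 = ‖(9 : L)‖ * (‖(ε : L)‖ * ‖u‖ ^ 2) := by ring
          _ ≤ ‖(9 : L)‖ * 1 := by gcongr
          _ = ‖(9 : L)‖ := mul_one _
    apply h.dvd_nine
    have e2 : (((D : ℤ) ^ 2 + ε : ℤ) : L) = -(x ^ 3 - (ε : L)) := by
      rw [hx]
      push_cast
      ring
    rw [e2, norm_neg]
    exact h6
  have hmod : ∀ r : ℕ, D % 9 = r → (D : ℤ) ^ 2 % 9 = ((r : ℤ) ^ 2) % 9 := by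
    intro r hr
    have : (D : ℤ) % 9 = (r : ℤ) := by omega
    rw [pow_two, Int.mul_emod, this, pow_two]
  have hlt : D % 9 < 9 := Nat.mod_lt _ (by norm_num)
  rcases hL.res x hxn.le with h5 | h5 | h5
  · linarith
  · have h6 := key 1 (Or.inl rfl) (by simpa using h5)
    have h7 := hmod (D % 9) rfl
    generalize hr : D % 9 = r at *
    interval_cases r <;> first | omega | (norm_num at h7; omega)
  · have h6 := key (-1) (Or.inr rfl) (by simpa using h5)
    have h7 := hmod (D % 9) rfl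
    generalize hr : D % 9 = r at *
    interval_cases r <;> first | omega | (norm_num at h7; omega)

end

/-! ### finite groups of points -/

section

variable {F : Type} [Field F]

/-- a finite group of points without torsion prime to three, over a field in which the second factor of the
3-division polynomial has no root, has only points with `x = 0` -/
lemma x_zero {W : WeierstrassCurve F} (hW : Short W) (h4 : W.a₄ = 0) (h2 : (2 : F) ≠ 0)
    (h3 : (3 : F) ≠ 0) (h6 : W.a₆ ≠ 0) (hnc : ∀ x : F, x ^ 3 ≠ -4 * W.a₆)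
    (hfin : Finite W.toAffine.Point)
    (hprime : ∀ (P : W.toAffine.Point) (m : ℕ), ¬ 3 ∣ m → m • P = 0 → P = 0)
    {x y : F} (n : W.toAffine.Nonsingular x y) : x = 0 := by
  have h9 : ∀ Q : W.toAffine.Point, 9 • Q = 0 → 3 • Q = 0 := by
    intro Q hQ
    match Q, hQ with
    | .zero, _ => exact smul_zero 3
    | .some a b m, hQ =>
      by_contra hne
      have h5 : 3 • (3 • Affine.Point.some a b m) = (0 : W.toAffine.Point) := by
        rw [← mul_smul]
        exact hQ
      match hR : 3 • Affine.Point.some a b m with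
      | .zero => exact hne hR
      | .some X Y m' =>
        rw [hR] at h5
        have hX : X = 0 := (three_tor hW h4 h2 h3 m' h5).resolve_right (hnc X)
        subst hX
        have hb : b ≠ 0 := by
          intro hb
          have h7 : Affine.Point.some a b m + Affine.Point.some a b m = (0 : W.toAffine.Point) := by
            refine Affine.Point.add_of_Y_eq rfl ?_
            rw [hW.negY, hb, neg_zero]
          have h8 : 3 • Affine.Point.some a b m = (Affine.Point.some a b m +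
              Affine.Point.some a b m) + Affine.Point.some a b m := by abel
          rw [h8, h7, zero_add, Affine.Point.some.injEq] at hR
          have he := hW.eqn m
          rw [h4, zero_mul, add_zero, hb, hR.1] at he
          apply h6
          linear_combination -he
        obtain ⟨x₁, hx₁⟩ := three_root hW h4 h2 h3 m hb hR
        exact hnc x₁ hx₁
  have hk : ∀ (k : ℕ) (P : W.toAffine.Point), 3 ^ k • P = 0 → 3 • P = 0 := by
    intro k
    induction k with
    | zero => intro P hP; rw [pow_zero, one_smul] at hP; rw [hP, smul_zero]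
    | succ k ih =>
      intro P hP
      have h5 : 3 ^ k • (3 • P) = 0 := by
        rw [← mul_smul, ← pow_succ]
        exact hP
      have h7 := ih _ h5
      apply h9
      rw [show (9 : ℕ) = 3 * 3 from rfl, mul_smul]
      exact h7
  have hN : Nat.card W.toAffine.Point ≠ 0 := Nat.card_pos.ne'
  obtain ⟨a, m, hm, hc⟩ := Nat.exists_eq_pow_mul_and_not_dvd hN 3 (by norm_num)
  have h5 : m • (3 ^ a • Affine.Point.some x y n) = (0 : W.toAffine.Point) := by
    rw [← mul_smul, mul_comm, ← hc]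
    exact card_nsmul_eq_zero'
  exact (three_tor hW h4 h2 h3 n (hk a _ (hprime _ _ hm h5))).resolve_right (hnc x)

/-- **The points.** -/
theorem three_pts [CharZero F] {D : ℕ} (hD : D ≠ 0) {V : WeierstrassCurve F} (hV : V = WE (D : F))
    (hfin : Finite V.toAffine.Point)
    (hprime : ∀ (P : V.toAffine.Point) (m : ℕ), ¬ 3 ∣ m → m • P = 0 → P = 0)
    (hnc : ∀ x : F, x ^ 3 ≠ -(D : F) ^ 2) {x y : F} (n : V.toAffine.Nonsingular x y) :
    x = 0 ∧ (y = 0 ∨ y = -(D : F)) := by
  subst hV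
  have h2 : (2 : F) ≠ 0 := two_ne_zero
  have h3 : (3 : F) ≠ 0 := three_ne_zero
  have hD' : (D : F) ≠ 0 := by exact_mod_cast hD
  have hW : Short (WS (D : F)) := ⟨rfl, rfl, rfl⟩
  have hfin' : Finite (WS (D : F)).toAffine.Point := Finite.of_equiv _ (isoS h2 (D : F)).toEquiv
  have hx : x = 0 := by
    refine x_zero hW rfl h2 h3 (div_ne_zero (pow_ne_zero _ hD') (by norm_num)) (fun z hz => ?_) hfin'
      (fun P m hm h => ?_) ((ns_iff h2 (D : F) x y).1 n)
    · apply hnc z
      rw [hz]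
      show -4 * ((D : F) ^ 2 / 4) = _
      field_simp
    · have h5 : m • (isoS h2 (D : F)).symm P = 0 := by rw [← map_nsmul, h, map_zero]
      have h6 := hprime _ m hm h5
      have h7 := congrArg (isoS h2 (D : F)) h6
      rwa [AddEquiv.apply_symm_apply, map_zero] at h7
  refine ⟨hx, ?_⟩
  have he := ((Affine.nonsingular_iff ..).1 n).1
  rw [Affine.equation_iff, hx] at he
  have he' : y * (y + (D : F)) = 0 := by
    simp only [WE] at he
    linear_combination he
  rcases mul_eq_zero.1 he' with h | h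
  · exact Or.inl h
  · exact Or.inr (eq_neg_of_add_eq_zero_left h)

end

end Pool.Agent.U188.CT
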