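import Pool.Agent.R419.ST.Main
import Pool.Agent.TH954.X2.WDiv

/-!
# Rational points give elements of the Selmer sets
-/

set_option autoImplicit false
set_option linter.all false

open IsDedekindDomain NumberField WeierstrassCurve MvPolynomial

namespace Pool.Agent.U188.CT

open Pool.Agent.TH954
open Pool.Agent.R419.ST
open Pool.Agent.Y696.CTK (ED)

open scoped Classical

section

/-- divisibility of the points over an algebraically closed field -/
lemma exists_div_WE {F : Type} [Field F] [CharZero F] [IsAlgClosed F] {d : F} (hd : d ≠ 0)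
    {V : WeierstrassCurve F} (hV : V = WE d) {N : ℕ} (hN : 0 < N) (P : V.toAffine.Point) :
    ∃ Q : V.toAffine.Point, N • Q = P := by
  subst hV
  have h2 : (2 : F) ≠ 0 := two_ne_zero
  have hdisc : 4 * (0 : F) ^ 3 + 27 * (d ^ 2 / 4) ^ 2 ≠ 0 := by
    rw [zero_pow (by norm_num), mul_zero, zero_add]
    exact mul_ne_zero (by norm_num) (pow_ne_zero _ (div_ne_zero (pow_ne_zero _ hd) (by norm_num)))
  obtain ⟨Q, hQ⟩ : ∃ Q : (WS d).toAffine.Point, N • Q = isoS h2 d P :=
    Pool.Agent.TH954.X.We.div F 0 (d ^ 2 / 4) hdisc (isoS h2 d P) N hN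
  refine ⟨(isoS h2 d).symm Q, ?_⟩
  apply (isoS h2 d).injective
  rw [map_nsmul, AddEquiv.apply_symm_apply, hQ]

variable {K : Type} [Field K]

lemma base_EDK (L : Type) [Field L] [Algebra K L] (D : ℕ) :
    (ED (D : K)).baseChange L = WE (D : L) := by
  show (ED (D : K)).map (algebraMap K L) = _
  simp [ED, WE, WeierstrassCurve.map]

/-- the Kummer cocycle of a point (after `Pool.Agent.N890.US.kummer_cocycle`) -/
theorem kum_coc {E : WeierstrassCurve K} (Q : AlgPt E K) :
    IsCocycle E (fun σ => act E σ Q - Q) := by
  refine ⟨fun σ τ => ?_, ?_⟩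
  · change act E (σ * τ) Q - Q = (act E σ Q - Q) + act E σ (act E τ Q - Q)
    have h1 : act E (σ * τ) Q = act E σ (act E τ Q) := by
      unfold act
      rw [pm_pm]
      rfl
    rw [act_sub, h1]
    abel
  · match Q with
    | .zero =>
      refine ⟨⊥, inferInstance, fun σ τ _ => rfl⟩
    | .some x y h =>
      refine ⟨IntermediateField.adjoin K {x, y}, ?_, fun σ τ hστ => ?_⟩
      · apply IntermediateField.finiteDimensional_adjoin
        intro z _
        exact (Algebra.IsAlgebraic.isAlgebraic z).isIntegral
      · have hx : σ x = τ x := hστ x (IntermediateField.subset_adjoin K _ (by simp))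
        have hy : σ y = τ y := hστ y (IntermediateField.subset_adjoin K _ (by simp))
        have h1 : act E σ (.some x y h) = act E τ (.some x y h) := by
          obtain ⟨h1, e1⟩ := pm_some (E := E)
            ((σ : AlgebraicClosure K →ₐ[K] AlgebraicClosure K).restrictScalars K) h
          obtain ⟨h2, e2⟩ := pm_some (E := E)
            ((τ : AlgebraicClosure K →ₐ[K] AlgebraicClosure K).restrictScalars K) h
          unfold act
          rw [e1, e2]
          congr 1
        change act E σ (.some x y h) - _ = act E τ (.some x y h) - _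
        rw [h1]

variable {n : ℕ}

/-- The coordinates of a rational point over an extension -/
lemma crd_pm' {E : WeierstrassCurve K} {L₁ L₂ : Type} [Field L₁] [Algebra K L₁] [Field L₂]
    [Algebra K L₂] (f : L₁ →ₐ[K] L₂) (P : (E.baseChange L₁).toAffine.Point) (j : Fin 3) :
    crd (pm E f P) j = f (crd P j) := by
  match P with
  | .zero =>
    have e : pm E f (Affine.Point.zero : (E.baseChange L₁).toAffine.Point) = Affine.Point.zero :=
      map_zero (pm E f)
    rw [e]
    fin_cases j <;> simp [crd]
  | .some x y h =>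
    obtain ⟨h', e⟩ := pm_some (E := E) f h
    rw [e]
    fin_cases j <;> simp [crd]

/-- **A rational point lifts to its Kummer covering over all extensions.** -/
theorem covAt_rational (E : Fin n → WeierstrassCurve K)
    {N : ℕ} (y : (i : Fin n) → ((E i).baseChange K).toAffine.Point) (R : (i : Fin n) → AlgPt (E i) K)
    (hR : ∀ i, N • R i = incl (E i) K (y i)) (L : Type) [Field L] [Algebra K L] :
    CovAt E N (fun i σ => act (E i) σ (R i) - R i) L (fun i => pm (E i) (Algebra.ofId K L) (y i)) := by
  let ι : AlgebraicClosure K →ₐ[K] AlgebraicClosure L := IsAlgClosed.lift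
  refine ⟨ι, fun i => pm (E i) ι (R i), fun i => ?_, fun i σ τ hστ => ?_⟩
  · have e3 : pm (E i) ι (N • R i) = N • pm (E i) ι (R i) := map_nsmul _ _ _
    rw [← e3, hR i]
    unfold incl
    rw [pm_pm, pm_pm]
    congr 2
    apply AlgHom.ext
    intro z
    exact (((IsScalarTower.toAlgHom K L (AlgebraicClosure L)).comp (Algebra.ofId K L)).commutes z).trans
      ((ι.comp (IsScalarTower.toAlgHom K K (AlgebraicClosure K))).commutes z).symm |>.symm
  · rw [map_sub, act_pm ι hστ]

/-- the coordinates of a rational point satisfy the equations over an extension if and only if they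
satisfy them over the base field -/
lemma onX_pm (E : Fin n → WeierstrassCurve K) (S : Set (MvPolynomial (Fin n × Fin 3) K))
    (y : (i : Fin n) → ((E i).baseChange K).toAffine.Point) (L : Type) [Field L] [Algebra K L] :
    OnX S (fun i => crd (pm (E i) (Algebra.ofId K L) (y i))) ↔ OnX S (fun i => crd (y i)) := by
  have h2 : (fun p : Fin n × Fin 3 => crd (pm (E p.1) (Algebra.ofId K L) (y p.1)) p.2) =
      fun p => algebraMap K L (crd (y p.1) p.2) := by
    funext p
    rw [crd_pm']
    rfl
  have h3 : ∀ f : MvPolynomial (Fin n × Fin 3) K,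
      aeval (fun p : Fin n × Fin 3 => algebraMap K L (crd (y p.1) p.2)) f =
      algebraMap K L (aeval (fun p : Fin n × Fin 3 => crd (y p.1) p.2) f) := fun f =>
    MvPolynomial.aeval_algebraMap_apply _ _ _
  have key : ∀ f : MvPolynomial (Fin n × Fin 3) K,
      aeval (fun p : Fin n × Fin 3 => crd (pm (E p.1) (Algebra.ofId K L) (y p.1)) p.2) f = 0 ↔
      aeval (fun p : Fin n × Fin 3 => crd (y p.1) p.2) f = 0 := by
    intro f
    rw [h2, h3 f, map_eq_zero]
  exact ⟨fun h f hf => (key f).1 (h f hf), fun h f hf => (key f).2 (h f hf)⟩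

/-- **The covering of a rational point has points over all extensions.** -/
theorem cov_rational (E : Fin n → WeierstrassCurve K) (S : Set (MvPolynomial (Fin n × Fin 3) K))
    {N : ℕ} (y : (i : Fin n) → ((E i).baseChange K).toAffine.Point)
    (hy : OnX S (fun i => crd (y i))) (R : (i : Fin n) → AlgPt (E i) K)
    (hR : ∀ i, N • R i = incl (E i) K (y i)) (L : Type) [Field L] [Algebra K L] :
    CovPt E S N (fun i σ => act (E i) σ (R i) - R i) L := by
  obtain ⟨ι, Q, h1, h2⟩ := covAt_rational E y R hR L
  exact ⟨ι, _, Q, (onX_pm E S y L).2 hy, h1, h2⟩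

/-- a point is determined by its coordinates -/
lemma crd_inj {F : Type} [Field F] {W : WeierstrassCurve F} {P Q : W.toAffine.Point}
    (h : crd P = crd Q) : P = Q := by
  match P, Q, h with
  | .zero, .zero, _ => rfl
  | .zero, .some x y n, h =>
    have := congrFun h 2
    simp [crd] at this
  | .some x y n, .zero, h =>
    have := congrFun h 2
    simp [crd] at this
  | .some x y n, .some x' y' n', h =>
    have h1 := congrFun h 0
    have h2 := congrFun h 1
    simp only [crd, Matrix.cons_val_zero, Matrix.cons_val_one] at h1 h2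
    subst h1
    subst h2
    rfl

/-- the Kummer cocycles are killed by `N` -/
lemma kum_kill {E : WeierstrassCurve K} {N : ℕ} {y : (E.baseChange K).toAffine.Point}
    {R : AlgPt E K} (hR : N • R = incl E K y) (σ : AlgebraicClosure K ≃ₐ[K] AlgebraicClosure K) :
    N • (act E σ R - R) = 0 := by
  rw [ns_sub, ← act_nsmul, hR, act_incl, sub_self]

/-- roots of rational points -/
theorem exists_roots [CharZero K] {D : Fin n → ℕ} (hD : ∀ i, D i ≠ 0) {N : ℕ} (hN : 0 < N)
    (y : (i : Fin n) → ((ED (D i : K)).baseChange K).toAffine.Point) :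
    ∃ R : (i : Fin n) → AlgPt (ED (D i : K)) K, ∀ i, N • R i = incl (ED (D i : K)) K (y i) := by
  have : CharZero (AlgebraicClosure K) :=
    charZero_of_injective_algebraMap (algebraMap K (AlgebraicClosure K)).injective
  have h : ∀ i, ∃ R : AlgPt (ED (D i : K)) K, N • R = incl (ED (D i : K)) K (y i) := fun i =>
    exists_div_WE (d := (D i : AlgebraicClosure K)) (by exact_mod_cast hD i)
      (base_EDK (AlgebraicClosure K) (D i)) hN _
  choose R hR using h
  exact ⟨R, hR⟩

/-- **Rational points give elements of the Selmer sets** (number fields) -/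
theorem sel_nonempty [NumberField K] {D : Fin n → ℕ} (hD : ∀ i, D i ≠ 0)
    (S : Set (MvPolynomial (Fin n × Fin 3) K)) {N : ℕ} (hN : 0 < N)
    (y : (i : Fin n) → ((ED (D i : K)).baseChange K).toAffine.Point)
    (hy : OnX S (fun i => crd (y i))) : (SelSet (fun i => ED (D i : K)) S N).Nonempty := by
  obtain ⟨R, hR⟩ := exists_roots hD hN y
  exact ⟨fun i σ => act (ED (D i : K)) σ (R i) - R i, fun i => kum_coc (R i),
    fun i σ => kum_kill (hR i) σ, fun v => cov_rational _ S y hy R hR _,
    fun w => cov_rational _ S y hy R hR _⟩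

end

end Pool.Agent.U188.CT
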