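import Pool.Agent.U188.CT.Gen
import Mathlib.NumberTheory.Padics.ProperSpace
import Mathlib.NumberTheory.Padics.RingHoms

/-!
# Three-power descent over `ℚ` on closed subvarieties of products of the curves `y² + D y = x³`
-/

set_option autoImplicit false
set_option linter.all false

open WeierstrassCurve MvPolynomial Filter Topology

namespace Pool.Agent.U188.CT

open Pool.Agent.TH954
open Pool.Agent.R419.ST
open Pool.Agent.Y696.CTK (ED)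
open Pool.Agent.TH841.SH.D (Gal)

open scoped Classical

/-- the three-primary part of the Tate-Shafarevich group is trivial -/
def Sha3Q (E : WeierstrassCurve ℚ) : Prop :=
  ∀ (k : ℕ) (s : Pool.Agent.TH841.SH.D.Sha E), 3 ^ k • s = 0 → s = 0

/-- a Selmer class of three-power order is a coboundary -/
theorem cob_Q {E : WeierstrassCurve ℚ} (hsha : Sha3Q E) (k : ℕ) (ξ : Gal ℚ → AlgPt E ℚ)
    (hξ : IsCocycle E ξ) (hk : ∀ σ, 3 ^ k • ξ σ = 0)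
    (hv : ∀ (p : ℕ) [Fact p.Prime], TrivialOver E ξ ℚ_[p]) (hw : TrivialOver E ξ ℝ) :
    ∃ R : AlgPt E ℚ, ∀ σ : Gal ℚ, ξ σ = act E σ R - R := by
  have hcoc : Pool.Agent.TH841.SH.D.IsShaCoc E ξ :=
    ⟨coc_of hξ, fun p _ => loc_of hξ (hv p), loc_of hξ hw⟩
  let x : Pool.Agent.TH841.SH.D.shaCoc E := ⟨ξ, hcoc⟩
  have hx0 : 3 ^ k • x = 0 := by
    apply Subtype.ext
    funext σ
    exact hk σ
  let q : Pool.Agent.TH841.SH.D.shaCoc E →+ Pool.Agent.TH841.SH.D.Sha E :=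
    QuotientAddGroup.mk' ((Pool.Agent.TH841.SH.D.cob E).addSubgroupOf
      (Pool.Agent.TH841.SH.D.shaCoc E))
  have hq : q x = 0 := by
    refine hsha k _ ?_
    rw [← map_nsmul, hx0, map_zero]
  have hq' : x ∈ (Pool.Agent.TH841.SH.D.cob E).addSubgroupOf (Pool.Agent.TH841.SH.D.shaCoc E) :=
    (QuotientAddGroup.eq_zero_iff x).1 hq
  have hcob : Pool.Agent.TH841.SH.D.IsCob E ξ := hq'
  exact hcob

/-- the `N`-Selmer set of `X` -/
def SelSetQ {n : ℕ} (E : Fin n → WeierstrassCurve ℚ) (S : Set (MvPolynomial (Fin n × Fin 3) ℚ))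
    (N : ℕ) : Set ((i : Fin n) → Gal ℚ → AlgPt (E i) ℚ) :=
  {ξ | (∀ i, IsCocycle (E i) (ξ i)) ∧ (∀ i σ, N • ξ i σ = 0) ∧
    (∀ (p : ℕ) [Fact p.Prime], CovPt E S N ξ ℚ_[p]) ∧ CovPt E S N ξ ℝ}

/-! ### the field of the 3-adic numbers -/

lemma three_Q : Three ℚ_[3] := by
  refine ⟨?_, ?_, fun m hm => ?_⟩
  · rw [norm_pos_iff]
    norm_num
  · have := Padic.norm_p_lt_one (p := 3)
    exact_mod_cast this
  · refine le_antisymm (Padic.norm_int_le_one m) ?_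
    by_contra hcon
    rw [not_le] at hcon
    exact hm (by exact_mod_cast Padic.norm_intCast_lt_one_iff.1 hcon)

lemma res_Q : Res ℚ_[3] := by
  intro x hx
  let y : ℤ_[3] := ⟨x, hx⟩
  have h1 : ‖x - ((PadicInt.zmodRepr y : ℕ) : ℚ_[3])‖ < 1 := by
    have := PadicInt.norm_sub_zmodRepr_lt_one y
    rw [PadicInt.norm_def, PadicInt.coe_sub, PadicInt.coe_natCast] at this
    exact this
  have h2 := PadicInt.zmodRepr_lt_p y
  have h3 := three_Q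
  obtain h | h | h : PadicInt.zmodRepr y = 0 ∨ PadicInt.zmodRepr y = 1 ∨ PadicInt.zmodRepr y = 2 := by
    omega
  · left
    rw [h] at h1
    simpa using h1
  · right; left
    rw [h] at h1
    simpa using h1
  · right; right
    rw [h] at h1
    have e : x + 1 = (x - ((2 : ℕ) : ℚ_[3])) + 3 := by
      push_cast
      ring
    rw [e]
    exact (IsUltrametricDist.norm_add_le_max _ _).trans_lt (max_lt h1 h3.lt)

lemma disc_Q (x : ℚ_[3]) (hx : ‖x‖ < 1) : ‖x‖ ≤ ‖(3 : ℚ_[3])‖ := by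
  have h1 := Padic.norm_le_pow_iff_norm_lt_pow_add_one x (-1)
  have h2 : ‖(3 : ℚ_[3])‖ = (3 : ℝ)⁻¹ := by
    have := Padic.norm_p (p := 3)
    exact_mod_cast this
  rw [h2]
  have h3 := h1.2 (by simpa using hx)
  simpa using h3

lemma tors_Q3 : Tors ℚ_[3] := tors_Q three_Q res_Q disc_Q

/-- the coverings of the Selmer set come from rational points -/
theorem shift_Q {n : ℕ} (E : Fin n → WeierstrassCurve ℚ) (hsha : ∀ i, Sha3Q (E i))
    (S : Set (MvPolynomial (Fin n × Fin 3) ℚ)) (k : ℕ)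
    (ξ : (i : Fin n) → Gal ℚ → AlgPt (E i) ℚ) (hξ : ξ ∈ SelSetQ E S (3 ^ k)) :
    ∃ y : (i : Fin n) → ((E i).baseChange ℚ).toAffine.Point,
      ∀ (L : Type) [Field L] [CharZero L] [Algebra ℚ L]
        (P : (i : Fin n) → ((E i).baseChange L).toAffine.Point), CovAt E (3 ^ k) ξ L P →
        ∀ i, ∃ z, P i = pm (E i) (Algebra.ofId ℚ L) (y i) + 3 ^ k • z := by
  obtain ⟨h1, h2, h3, h4⟩ := hξ
  have hT : ∀ i, ∃ R : AlgPt (E i) ℚ, ∀ σ : Gal ℚ, ξ i σ = act (E i) σ R - R := by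
    intro i
    refine cob_Q (hsha i) k (ξ i) (h1 i) (h2 i) (fun p _ => ?_) ?_
    · obtain ⟨ι, P, Q, -, -, h⟩ := h3 p
      exact ⟨ι, Q i, fun σ τ hστ => h i σ τ hστ⟩
    · obtain ⟨ι, P, Q, -, -, h⟩ := h4
      exact ⟨ι, Q i, fun σ τ hστ => h i σ τ hστ⟩
  choose R hR using hT
  have hR0 : ∀ i, ∀ σ : Gal ℚ, 3 ^ 0 • ξ i σ = act (E i) σ (R i) - R i := by
    intro i σ
    rw [pow_zero, one_smul]
    exact hR i σ
  have hy : ∀ i, ∃ y : ((E i).baseChange ℚ).toAffine.Point, incl (E i) ℚ y = 3 ^ k • R i :=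
    fun i => coc_gen k 0 (ξ i) (fun σ => by rw [add_zero]; exact h2 i σ) (R i) (hR0 i)
  choose y hy using hy
  refine ⟨y, fun L _ _ _ P hP i => ?_⟩
  obtain ⟨ι, Q, hPQ, hQ⟩ := hP
  exact shift_gen k 0 (hy i) (hR0 i) ι (by rw [add_zero]; exact hPQ i) (hQ i)

variable {n : ℕ}

/-- **The 3-adic components over `ℚ`.** -/
theorem thmQ1 {D : Fin n → ℕ} (hD : ∀ i, ¬ 3 ∣ D i)
    (hfin : ∀ i, Finite (ED (D i : ℚ)).toAffine.Point) (hsha : ∀ i, Sha3Q (ED (D i : ℚ)))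
    (S : Set (MvPolynomial (Fin n × Fin 3) ℚ))
    (P : (i : Fin n) → ((ED (D i : ℚ)).baseChange ℚ_[3]).toAffine.Point)
    (h : ∀ k : ℕ, ∃ ξ ∈ SelSetQ (fun i => ED (D i : ℚ)) S (3 ^ k),
      CovAt (fun i => ED (D i : ℚ)) (3 ^ k) ξ ℚ_[3] P) :
    ∃ y : (i : Fin n) → ((ED (D i : ℚ)).baseChange ℚ).toAffine.Point,
      ∀ i, NearT (D i) ℚ_[3] (P i) (y i) := by
  refine gen1 three_Q tors_Q3 hD hfin P fun k => ?_
  obtain ⟨ξ, hξ, hc⟩ := h k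
  obtain ⟨y, hy⟩ := shift_Q (fun i => ED (D i : ℚ)) hsha S k ξ hξ
  exact ⟨y, hy ℚ_[3] P hc⟩

/-- **The Hasse principle part over `ℚ`.** -/
theorem thmQ2 {D : Fin n → ℕ} (hD : ∀ i, ¬ 3 ∣ D i)
    (hfin : ∀ i, Finite (ED (D i : ℚ)).toAffine.Point) (hsha : ∀ i, Sha3Q (ED (D i : ℚ)))
    (S : Set (MvPolynomial (Fin n × Fin 3) ℚ)) (hS : ∀ f ∈ S, ∃ d, MultiHom d f)
    (hsel : ∀ k : ℕ, (SelSetQ (fun i => ED (D i : ℚ)) S (3 ^ k)).Nonempty) :
    ∃ P : (i : Fin n) → ((ED (D i : ℚ)).baseChange ℚ_[3]).toAffine.Point,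
      OnX S (fun i => crd (P i)) ∧
      ∃ y : (i : Fin n) → ((ED (D i : ℚ)).baseChange ℚ).toAffine.Point,
        ∀ i, NearT (D i) ℚ_[3] (P i) (y i) := by
  refine gen2 three_Q tors_Q3 hD hfin S hS fun k => ?_
  obtain ⟨ξ, hξ⟩ := hsel k
  obtain ⟨y, hy⟩ := shift_Q (fun i => ED (D i : ℚ)) hsha S k ξ hξ
  obtain ⟨-, -, h3, -⟩ := hξ
  obtain ⟨ι, P, Q, hP, hPQ, hQ⟩ := h3 3
  exact ⟨P, hP, y, hy ℚ_[3] P ⟨ι, Q, hPQ, hQ⟩⟩

end Pool.Agent.U188.CT
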