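import Pool.Agent.U188.CT.Conv
import Pool.Agent.U188.CT.Q
import Pool.Agent.U188.CT.Cm

/-!
# Rational points: Selmer sets over `ℚ`, and the points of `y² + D y = x³`
-/

set_option autoImplicit false
set_option linter.all false

open IsDedekindDomain NumberField WeierstrassCurve MvPolynomial

namespace Pool.Agent.U188.CT

open Pool.Agent.TH954
open Pool.Agent.R419.ST
open Pool.Agent.Y696.CTK (ED)
open Pool.Agent.TH841.SH.D (Gal)

open scoped Classical

/-- **Rational points give elements of the Selmer sets** (rational numbers) -/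
theorem sel_nonemptyQ {n : ℕ} {D : Fin n → ℕ} (hD : ∀ i, D i ≠ 0)
    (S : Set (MvPolynomial (Fin n × Fin 3) ℚ)) {N : ℕ} (hN : 0 < N)
    (y : (i : Fin n) → ((ED (D i : ℚ)).baseChange ℚ).toAffine.Point)
    (hy : OnX S (fun i => crd (y i))) : (SelSetQ (fun i => ED (D i : ℚ)) S N).Nonempty := by
  obtain ⟨R, hR⟩ := exists_roots hD hN y
  exact ⟨fun i σ => act (ED (D i : ℚ)) σ (R i) - R i, fun i => kum_coc (R i),
    fun i σ => kum_kill (hR i) σ, fun p _ => cov_rational _ S y hy R hR _,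
    cov_rational _ S y hy R hR _⟩

/-! ### the coordinates of the rational points -/

/-- the coordinates of the three points -/
def pt3 (F : Type) [Field F] (D : ℕ) : Fin 3 → Fin 3 → F :=
  ![![0, 1, 0], ![0, 0, 1], ![0, -(D : F), 1]]

section

variable {K : Type} [Field K]

lemma base_self (D : ℕ) : (ED (D : K)).baseChange K = WE (D : K) := base_EDK K D

lemma exists_pt [CharZero K] {D : ℕ} (hD : D ≠ 0) {V : WeierstrassCurve K} (hV : V = WE (D : K))
    (c : Fin 3) : ∃ P : V.toAffine.Point, crd P = pt3 K D c := by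
  subst hV
  have hD0 : (D : K) ≠ 0 := by exact_mod_cast hD
  fin_cases c
  · exact ⟨0, rfl⟩
  · refine ⟨Affine.Point.some 0 0 ?_, rfl⟩
    rw [Affine.nonsingular_iff, Affine.equation_iff]
    simp only [WE]
    refine ⟨by ring, Or.inr ?_⟩
    intro h
    apply hD0
    linear_combination h
  · refine ⟨Affine.Point.some 0 (-(D : K)) ?_, rfl⟩
    rw [Affine.nonsingular_iff, Affine.equation_iff]
    simp only [WE]
    refine ⟨by ring, Or.inr ?_⟩
    intro h
    apply hD0
    linear_combination -h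

lemma pts_of [CharZero K] {D : ℕ} (hD : D ≠ 0) {V : WeierstrassCurve K} (hV : V = WE (D : K))
    (hfin : Finite V.toAffine.Point)
    (hprime : ∀ (P : V.toAffine.Point) (m : ℕ), ¬ 3 ∣ m → m • P = 0 → P = 0)
    (hnc : ∀ x : K, x ^ 3 ≠ -(D : K) ^ 2) (P : V.toAffine.Point) : ∃ c, crd P = pt3 K D c := by
  match P with
  | .zero => exact ⟨0, rfl⟩
  | .some x y n =>
    obtain ⟨h1, h2 | h2⟩ := three_pts hD hV hfin hprime hnc n
    · refine ⟨1, ?_⟩
      subst h1 h2
      rfl
    · refine ⟨2, ?_⟩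
      subst h1 h2
      rfl

/-- transfer of torsion to the local field -/
lemma prime_K {L : Type} [NormedField L] [Algebra K L] {D : ℕ} (hT : Tors L)
    (hD : ¬ 3 ∣ D) [CharZero K] (P : ((ED (D : K)).baseChange K).toAffine.Point) {m : ℕ} (hm : ¬ 3 ∣ m)
    (h : m • P = 0) : 2 • P = 0 ∧ (P ≠ 0 → D % 9 = 2 ∨ D % 9 = 7) := by
  have h1 : m • pm (ED (D : K)) (Algebra.ofId K L) P = 0 := by
    have e := map_nsmul (pm (ED (D : K)) (Algebra.ofId K L)) m P
    rw [← e, h, map_zero]
  obtain ⟨h2, h3⟩ := hT D hD _ (base_EDN L D) _ m hm h1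
  refine ⟨?_, fun h4 => h3 fun h5 => h4 ?_⟩
  · apply pm_injective (E := ED (D : K)) (Algebra.ofId K L)
    have e := map_nsmul (pm (ED (D : K)) (Algebra.ofId K L)) 2 P
    rw [e, h2, map_zero]
  · apply pm_injective (E := ED (D : K)) (Algebra.ofId K L)
    rw [h5, map_zero]

/-- a point of order prime to three is zero, if there is no point of order two -/
lemma prime_zero {L : Type} [NormedField L] [Algebra K L] {D : ℕ} (hT : Tors L)
    (hD : ¬ 3 ∣ D) [CharZero K] (hno : ∀ x : K, x ^ 3 ≠ -(D : K) ^ 2 / 4)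
    (P : ((ED (D : K)).baseChange K).toAffine.Point) {m : ℕ} (hm : ¬ 3 ∣ m) (h : m • P = 0) :
    P = 0 := by
  obtain ⟨h4, -⟩ := prime_K hT hD P hm h
  match P, h4 with
  | .zero, _ => rfl
  | .some x y n, h4 =>
    exfalso
    have h5 : Affine.Point.some x y n = -Affine.Point.some x y n := by
      rw [two_nsmul] at h4
      exact eq_neg_of_add_eq_zero_left h4
    rw [Affine.Point.neg_some, Affine.Point.some.injEq] at h5
    have h6 := h5.2
    have heq := ((Affine.nonsingular_iff ..).1 n).1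
    rw [Affine.equation_iff] at heq
    have a1 : ((ED (D : K)).baseChange K).a₁ = 0 := by rw [base_self]; rfl
    have a2 : ((ED (D : K)).baseChange K).a₂ = 0 := by rw [base_self]; rfl
    have a3 : ((ED (D : K)).baseChange K).a₃ = D := by rw [base_self]; rfl
    have a4 : ((ED (D : K)).baseChange K).a₄ = 0 := by rw [base_self]; rfl
    have a6 : ((ED (D : K)).baseChange K).a₆ = 0 := by rw [base_self]; rfl
    rw [Affine.negY, a1, a3] at h6
    rw [a1, a2, a3, a4, a6] at heq
    have hy : y = -(D : K) / 2 := by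
      field_simp
      linear_combination h6
    refine hno x ?_
    rw [hy] at heq
    linear_combination -heq

end

/-! ### over the rational numbers -/

/-- `w³ = e²` with `e` cube-free implies `e = 1` -/
lemma one_of_cube {w e : ℕ} (he : e ≠ 0) (h : w ^ 3 = e ^ 2) (hcf : ∀ p : ℕ, p.Prime → ¬ p ^ 3 ∣ e) :
    e = 1 := by
  by_contra hne
  obtain ⟨p, hp, hpe⟩ := Nat.exists_prime_and_dvd hne
  have h1 : 3 * w.factorization p = 2 * e.factorization p := by
    have h2 := congrArg (fun m => m.factorization p) h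
    simpa [Nat.factorization_pow] using h2
  have h2 : 1 ≤ e.factorization p := (hp.dvd_iff_one_le_factorization he).1 hpe
  have h3 : 3 ≤ e.factorization p := by omega
  exact hcf p hp ((hp.pow_dvd_iff_le_factorization he).2 h3)

/-- a rational cube root of a natural number is an integer -/
lemma int_root {x : ℚ} {m : ℕ} (h : x ^ 3 = (m : ℚ)) : ∃ a : ℕ, a ^ 3 = m ∧ x = (a : ℚ) := by
  have hint : IsIntegral ℤ x := by
    refine ⟨Polynomial.X ^ 3 - Polynomial.C (m : ℤ), ?_, ?_⟩
    · exact Polynomial.monic_X_pow_sub_C _ (by norm_num)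
    · rw [Polynomial.eval₂_sub, Polynomial.eval₂_X_pow, Polynomial.eval₂_C, h]
      simp
  obtain ⟨z, hz'⟩ := IsIntegrallyClosed.isIntegral_iff.1 hint
  have hz' : (z : ℚ) = x := hz'
  have hz2 : z ^ 3 = (m : ℤ) := by
    rw [← hz'] at h
    exact_mod_cast h
  have hz0 : 0 ≤ z := by
    by_contra hcon
    rw [not_le] at hcon
    have h5 : z ^ 3 < 0 := by
      have e : z ^ 3 = z * z ^ 2 := by ring
      rw [e]
      exact mul_neg_of_neg_of_pos hcon (sq_pos_of_ne_zero hcon.ne)
    have h6 : (0 : ℤ) ≤ m := by positivity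
    omega
  obtain ⟨a, rfl⟩ := Int.eq_ofNat_of_zero_le hz0
  exact ⟨a, by exact_mod_cast hz2, by rw [← hz']; simp⟩

/-- `-D²` is not a cube -/
lemma noncube_Q {D : ℕ} (h3 : 3 ≤ D) (hcf : ∀ p : ℕ, p.Prime → ¬ p ^ 3 ∣ D) (x : ℚ) :
    x ^ 3 ≠ -(D : ℚ) ^ 2 := by
  intro h
  obtain ⟨a, ha, -⟩ := int_root (x := -x) (m := D ^ 2) (by
    push_cast
    linear_combination -h)
  have := one_of_cube (by omega) ha hcf
  omega

/-- no rational point of order two -/
lemma no_two {D : ℕ} (h3 : 3 ≤ D) (hcf : ∀ p : ℕ, p.Prime → ¬ p ^ 3 ∣ D) (x : ℚ)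
    (h : x ^ 3 = -(D : ℚ) ^ 2 / 4) : False := by
  obtain ⟨a, ha, -⟩ := int_root (x := -2 * x) (m := 2 * D ^ 2) (by
    push_cast
    linear_combination -8 * h)
  have h2a : 2 ∣ a := by
    have : 2 ∣ a ^ 3 := by rw [ha]; exact dvd_mul_right _ _
    exact Nat.prime_two.dvd_of_dvd_pow this
  obtain ⟨w, rfl⟩ := h2a
  have hw : 4 * w ^ 3 = D ^ 2 := by
    have : (2 * w) ^ 3 = 8 * w ^ 3 := by ring
    rw [this] at ha
    omega
  have h2D : 2 ∣ D := by
    have : 2 ∣ D ^ 2 := by rw [← hw]; exact ⟨2 * w ^ 3, by ring⟩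
    exact Nat.prime_two.dvd_of_dvd_pow this
  obtain ⟨e, rfl⟩ := h2D
  have he : w ^ 3 = e ^ 2 := by
    have : (2 * e) ^ 2 = 4 * e ^ 2 := by ring
    rw [this] at hw
    omega
  have he0 : e ≠ 0 := by omega
  have := one_of_cube he0 he fun p hp hd => hcf p hp (hd.trans (dvd_mul_left _ _))
  omega

/-- **The rational points.** -/
theorem pts_Q {D : ℕ} (hD : ¬ 3 ∣ D) (h3 : 3 ≤ D) (hcf : ∀ p : ℕ, p.Prime → ¬ p ^ 3 ∣ D)
    (hfin : Finite ((ED (D : ℚ)).baseChange ℚ).toAffine.Point)
    (P : ((ED (D : ℚ)).baseChange ℚ).toAffine.Point) : ∃ c, crd P = pt3 ℚ D c :=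
  pts_of (by omega) (base_self D) hfin (fun P m hm h =>
    prime_zero tors_Q3 hD (fun x hx => no_two h3 hcf x hx) P hm h)
    (noncube_Q h3 hcf) P

/-- **The points over a number field with a good place above three.** -/
theorem pts_K {K : Type} [Field K] [CharZero K] {L : Type} [NormedField L] [IsUltrametricDist L]
    [ProperSpace L] [Algebra K L] (h3 : Three L) {lam : L} (hL : IsLoc lam) {D : ℕ}
    (hD : D % 9 = 4 ∨ D % 9 = 5) (hfin : Finite ((ED (D : K)).baseChange K).toAffine.Point)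
    (P : ((ED (D : K)).baseChange K).toAffine.Point) : ∃ c, crd P = pt3 K D c := by
  have hD3 : ¬ 3 ∣ D := by omega
  refine pts_of (by omega) (base_self D) hfin (fun P m hm h => ?_) (fun x hx => ?_) P
  · by_contra hne
    have := (prime_K (tors_isLoc h3 hL) hD3 P hm h).2 hne
    omega
  · refine noncube h3 hL hD3 (by omega) (by omega) (algebraMap K L x) ?_
    rw [← map_pow, hx, map_neg, map_pow, map_natCast]

end Pool.Agent.U188.CT
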