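import Pool.Agent.U188.CT.Gen

/-!
# Three-power descent over number fields over which the three-primary part of the Tate-Shafarevich group
# is killed by a fixed power of three
-/

set_option autoImplicit false
set_option linter.all false

open IsDedekindDomain NumberField WeierstrassCurve MvPolynomial Filter Topology

namespace Pool.Agent.U188.CT

open Pool.Agent.TH954
open Pool.Agent.R419.ST
open Pool.Agent.Y696.CTK (ED)

open scoped Classical

section

variable {K : Type} [Field K] [NumberField K]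

/-- the three-primary part of the Tate-Shafarevich group is killed by `3 ^ s` -/
def Kill (E : WeierstrassCurve K) (s : ℕ) : Prop :=
  ∀ (m : ℕ) (x : Pool.Agent.TH841.NF.D.Sha E), 3 ^ m • x = 0 → 3 ^ s • x = 0

/-- **The multiples by `3 ^ s` of Selmer classes of three-power order come from rational points.** -/
theorem coc_kill {E : WeierstrassCurve K} (k s : ℕ) (hsha : Kill E s)
    (ξ : (AlgebraicClosure K ≃ₐ[K] AlgebraicClosure K) → AlgPt E K) (hξ : IsCocycle E ξ)
    (hk : ∀ σ, 3 ^ (k + s) • ξ σ = 0)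
    (hv : ∀ v : HeightOneSpectrum (𝓞 K), TrivialOver E ξ (v.adicCompletion K))
    (hw : ∀ w : InfinitePlace K, TrivialOver E ξ w.Completion) :
    ∃ (R : AlgPt E K) (y : (E.baseChange K).toAffine.Point), incl E K y = 3 ^ k • R ∧
      ∀ σ, 3 ^ s • ξ σ = act E σ R - R := by
  have hcoc : Pool.Agent.TH841.NF.D.IsShaCoc E ξ :=
    ⟨coc_of hξ, fun v => loc_of hξ (hv v), fun w => loc_of hξ (hw w)⟩
  let x : Pool.Agent.TH841.NF.D.shaCoc E := ⟨ξ, hcoc⟩
  have hx0 : 3 ^ (k + s) • x = 0 := by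
    apply Subtype.ext
    funext σ
    exact hk σ
  let q : Pool.Agent.TH841.NF.D.shaCoc E →+ Pool.Agent.TH841.NF.D.Sha E :=
    QuotientAddGroup.mk' ((Pool.Agent.TH841.SH.D.cob E).addSubgroupOf
      (Pool.Agent.TH841.NF.D.shaCoc E))
  have hq : q (3 ^ s • x) = 0 := by
    rw [map_nsmul]
    refine hsha (k + s) _ ?_
    rw [← map_nsmul, hx0, map_zero]
  have hq' : 3 ^ s • x ∈ (Pool.Agent.TH841.SH.D.cob E).addSubgroupOf
      (Pool.Agent.TH841.NF.D.shaCoc E) := (QuotientAddGroup.eq_zero_iff (3 ^ s • x)).1 hq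
  have hcob : Pool.Agent.TH841.SH.D.IsCob E (3 ^ s • ξ : Pool.Agent.TH841.SH.D.Coch E) := hq'
  have key : ∀ f : Pool.Agent.TH841.SH.D.Coch E, Pool.Agent.TH841.SH.D.IsCob E f →
      ∃ R : AlgPt E K, ∀ σ, (f σ : AlgPt E K) = act E σ R - R := fun f hf => hf
  obtain ⟨R, hR0⟩ := key _ hcob
  have hR' : ∀ σ, 3 ^ s • ξ σ = act E σ R - R := fun σ => hR0 σ
  obtain ⟨y, hy⟩ : ∃ y : (E.baseChange K).toAffine.Point, incl E K y = 3 ^ k • R := by
    refine exists_of_fixed (L := K) (3 ^ k • R) fun σ => ?_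
    have e1 : act E σ R = R + 3 ^ s • ξ σ := by
      rw [hR' σ]
      abel
    have e2 : 3 ^ k • (3 ^ s • ξ σ) = 0 := by
      rw [← mul_smul, ← pow_add]
      exact hk σ
    rw [act_nsmul, e1, ns_add, e2, add_zero]
  exact ⟨R, y, hy, hR'⟩

/-- the coverings of the Selmer set, divided by `3 ^ s`, come from rational points -/
theorem shift_kill {n : ℕ} (E : Fin n → WeierstrassCurve K) (s : ℕ) (hsha : ∀ i, Kill (E i) s)
    (S : Set (MvPolynomial (Fin n × Fin 3) K)) (k : ℕ)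
    (ξ : (i : Fin n) → (AlgebraicClosure K ≃ₐ[K] AlgebraicClosure K) → AlgPt (E i) K)
    (hξ : ξ ∈ SelSet E S (3 ^ (k + s))) :
    ∃ y : (i : Fin n) → ((E i).baseChange K).toAffine.Point,
      ∀ (L : Type) [Field L] [CharZero L] [Algebra K L]
        (P : (i : Fin n) → ((E i).baseChange L).toAffine.Point), CovAt E (3 ^ (k + s)) ξ L P →
        ∀ i, ∃ z, P i = pm (E i) (Algebra.ofId K L) (y i) + 3 ^ k • z := by
  obtain ⟨h1, h2, h3, h4⟩ := hξ
  have hT : ∀ i, ∃ (R : AlgPt (E i) K) (y : ((E i).baseChange K).toAffine.Point),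
      incl (E i) K y = 3 ^ k • R ∧ ∀ σ, 3 ^ s • ξ i σ = act (E i) σ R - R := by
    intro i
    refine coc_kill k s (hsha i) (ξ i) (h1 i) (h2 i) (fun u => ?_) (fun w => ?_)
    · obtain ⟨ι, P, Q, -, -, h⟩ := h3 u
      exact ⟨ι, Q i, fun σ τ hστ => h i σ τ hστ⟩
    · obtain ⟨ι, P, Q, -, -, h⟩ := h4 w
      exact ⟨ι, Q i, fun σ τ hστ => h i σ τ hστ⟩
  choose R y hy hR using hT
  refine ⟨y, fun L _ _ _ P hP i => ?_⟩
  obtain ⟨ι, Q, hPQ, hQ⟩ := hP
  refine shift (ξ := fun σ => 3 ^ s • ξ i σ) (Q := 3 ^ s • Q i) (hy i) (hR i) ι ?_ fun σ τ hστ => ?_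
  · rw [← hPQ i, ← mul_smul, ← pow_add]
  · have e1 : pm (E i) ι (3 ^ s • ξ i τ) = 3 ^ s • pm (E i) ι (ξ i τ) := map_nsmul _ _ _
    have e2 : act (E i) σ (3 ^ s • Q i) = 3 ^ s • act (E i) σ (Q i) := act_nsmul _ _ _
    rw [e1, e2, hQ i σ τ hστ, ns_sub]

end

/-! ### the descent -/

section

variable {K : Type} [Field K] [NumberField K] {n : ℕ}

/-- **Components at a place above three.** -/
theorem thmT1 {D : Fin n → ℕ} (hD : ∀ i, ¬ 3 ∣ D i) (s : ℕ)
    (hfin : ∀ i, Finite (ED (D i : K)).toAffine.Point) (hsha : ∀ i, Kill (ED (D i : K)) s)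
    (S : Set (MvPolynomial (Fin n × Fin 3) K))
    (v : HeightOneSpectrum (𝓞 K)) (h3 : Three (v.adicCompletion K)) (hT : Tors (v.adicCompletion K))
    (P : (i : Fin n) → ((ED (D i : K)).baseChange (v.adicCompletion K)).toAffine.Point)
    (h : ∀ k : ℕ, ∃ ξ ∈ SelSet (fun i => ED (D i : K)) S (3 ^ k),
      CovAt (fun i => ED (D i : K)) (3 ^ k) ξ (v.adicCompletion K) P) :
    ∃ y : (i : Fin n) → ((ED (D i : K)).baseChange K).toAffine.Point,
      ∀ i, NearT (D i) (v.adicCompletion K) (P i) (y i) := by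
  have inst3 : ProperSpace (v.adicCompletion K) := Pool.Agent.Y791.BS.proper v
  have : CharZero (v.adicCompletion K) := h3.charZero
  refine gen1 h3 hT hD hfin P fun k => ?_
  obtain ⟨ξ, hξ, hc⟩ := h (k + s)
  obtain ⟨y, hy⟩ := shift_kill (fun i => ED (D i : K)) s hsha S k ξ hξ
  exact ⟨y, hy (v.adicCompletion K) P hc⟩

/-- **The Hasse principle part.** -/
theorem thmT2 {D : Fin n → ℕ} (hD : ∀ i, ¬ 3 ∣ D i) (s : ℕ)
    (hfin : ∀ i, Finite (ED (D i : K)).toAffine.Point) (hsha : ∀ i, Kill (ED (D i : K)) s)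
    (S : Set (MvPolynomial (Fin n × Fin 3) K)) (hS : ∀ f ∈ S, ∃ d, MultiHom d f)
    (v : HeightOneSpectrum (𝓞 K)) (h3 : Three (v.adicCompletion K)) (hT : Tors (v.adicCompletion K))
    (hsel : ∀ k : ℕ, (SelSet (fun i => ED (D i : K)) S (3 ^ k)).Nonempty) :
    ∃ P : (i : Fin n) → ((ED (D i : K)).baseChange (v.adicCompletion K)).toAffine.Point,
      OnX S (fun i => crd (P i)) ∧
      ∃ y : (i : Fin n) → ((ED (D i : K)).baseChange K).toAffine.Point,
        ∀ i, NearT (D i) (v.adicCompletion K) (P i) (y i) := by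
  have inst3 : ProperSpace (v.adicCompletion K) := Pool.Agent.Y791.BS.proper v
  have : CharZero (v.adicCompletion K) := h3.charZero
  refine gen2 h3 hT hD hfin S hS fun k => ?_
  obtain ⟨ξ, hξ⟩ := hsel (k + s)
  obtain ⟨y, hy⟩ := shift_kill (fun i => ED (D i : K)) s hsha S k ξ hξ
  obtain ⟨-, -, h4, -⟩ := hξ
  obtain ⟨ι, P, Q, hP, hPQ, hQ⟩ := h4 v
  exact ⟨P, hP, y, hy (v.adicCompletion K) P ⟨ι, Q, hPQ, hQ⟩⟩

end

/-! ### the places above three -/

section

variable {K : Type} [Field K] [NumberField K]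

/-- the completions at the places above three -/
theorem three_of (v : HeightOneSpectrum (𝓞 K)) (hv : ((3 : ℕ) : 𝓞 K) ∈ v.asIdeal) :
    Three (v.adicCompletion K) := by
  have hcast : ∀ m : ℤ, (m : v.adicCompletion K) = ff v (m : 𝓞 K) := fun m => (map_intCast (ff v) m).symm
  refine ⟨?_, ?_, fun m hm => ?_⟩
  · rw [norm_pos_iff]
    have : CharZero (v.adicCompletion K) :=
      charZero_of_injective_algebraMap (algebraMap K (v.adicCompletion K)).injective
    norm_num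
  · have := nlt_mem v hv
    rw [map_natCast] at this
    exact_mod_cast this
  · rw [hcast]
    refine le_antisymm (nff_le v _) ?_
    by_contra hcon
    rw [not_le] at hcon
    have hmem : (m : 𝓞 K) ∈ v.asIdeal := (FinitePlace.norm_lt_one_iff_mem K v _).1 hcon
    have hco : IsCoprime (3 : ℤ) m := (Int.prime_three.coprime_iff_not_dvd).2 hm
    obtain ⟨a, b, hab⟩ := hco
    have h1 : (1 : 𝓞 K) ∈ v.asIdeal := by
      have e : (1 : 𝓞 K) = (a : 𝓞 K) * ((3 : ℕ) : 𝓞 K) + (b : 𝓞 K) * (m : 𝓞 K) := by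
        have := congrArg (fun x : ℤ => (x : 𝓞 K)) hab
        push_cast at this ⊢
        exact this.symm
      rw [e]
      exact v.asIdeal.add_mem (v.asIdeal.mul_mem_left _ hv) (v.asIdeal.mul_mem_left _ hmem)
    exact v.isPrime.ne_top ((Ideal.eq_top_iff_one _).2 h1)

/-- **The completions of `ℚ(ω, ∛l : l ∈ M)` at the places above three**, `l = 1` modulo `9`. -/
theorem isLoc_tower {z : K} (hz : z ^ 2 + z + 1 = 0) {M : Finset ℕ} (hM : ∀ l ∈ M, l % 9 = 1)
    (r : ℕ → K) (hr : ∀ l ∈ M, r l ^ 3 = (l : K))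
    (hgen : ∀ S : Subfield K, z ∈ S → (∀ l ∈ M, r l ∈ S) → S = ⊤)
    (v : HeightOneSpectrum (𝓞 K)) (hv : ((3 : ℕ) : 𝓞 K) ∈ v.asIdeal) :
    IsLoc (2 * algebraMap K (v.adicCompletion K) z + 1) := by
  have h3 := three_of v hv
  have hz' : algebraMap K (v.adicCompletion K) z ^ 2 + algebraMap K (v.adicCompletion K) z + 1 = 0 := by
    rw [← map_pow, ← map_add, ← map_one (algebraMap K (v.adicCompletion K)), ← map_add, hz, map_zero]
  refine isLoc_of_dense h3 (by linear_combination 4 * hz') ?_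
  exact dense_of h3 (algebraMap K (v.adicCompletion K)) (IsDedekindDomain.HeightOneSpectrum.denseRange_algebraMap K v) hz
    hM r hr hgen

/-- there is a place above three -/
theorem exists_three (K : Type) [Field K] [NumberField K] :
    ∃ v : HeightOneSpectrum (𝓞 K), ((3 : ℕ) : 𝓞 K) ∈ v.asIdeal := by
  have hu : ¬ IsUnit ((3 : ℕ) : 𝓞 K) := by
    intro h
    obtain ⟨x, hx⟩ := h.exists_right_inv
    have h1 : ((3 : ℕ) : K) * (x : K) = 1 := by
      have := congrArg (algebraMap (𝓞 K) K) hx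
      rwa [map_mul, map_natCast, map_one] at this
    have h2 : (x : K) = algebraMap ℚ K (1 / 3) := by
      have h3 : ((3 : ℕ) : K) ≠ 0 := by norm_num
      apply mul_left_cancel₀ h3
      rw [h1, ← map_natCast (algebraMap ℚ K), ← map_mul]
      norm_num
    have h4 : IsIntegral ℤ (algebraMap ℚ K (1 / 3)) := by
      rw [← h2]
      exact RingOfIntegers.isIntegral_coe x
    have h5 : IsIntegral ℤ (1 / 3 : ℚ) :=
      (isIntegral_algebraMap_iff (algebraMap ℚ K).injective).1 h4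
    obtain ⟨z, hz⟩ := IsIntegrallyClosed.isIntegral_iff.1 h5
    have hz' : (z : ℚ) = 1 / 3 := hz
    have h6 : (3 * z : ℤ) = 1 := by
      have : ((3 * z : ℤ) : ℚ) = 1 := by
        push_cast
        rw [hz']
        norm_num
      exact_mod_cast this
    omega
  obtain ⟨I, hI, hmem⟩ := exists_max_ideal_of_mem_nonunits hu
  have h0 : I ≠ ⊥ := by
    rintro rfl
    rw [Ideal.mem_bot] at hmem
    exact (by norm_num : ((3 : ℕ) : 𝓞 K) ≠ 0) hmem
  exact ⟨⟨I, hI.isPrime, h0⟩, hmem⟩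

end

end Pool.Agent.U188.CT
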