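import Pool.Agent.U188.CT.ConvQ
import Pool.Agent.U188.CT.Tow

/-!
# Three-power descent: the equivalences
-/

set_option autoImplicit false
set_option linter.all false

open IsDedekindDomain NumberField WeierstrassCurve MvPolynomial

namespace Pool.Agent.U188.CT

open Pool.Agent.TH954
open Pool.Agent.R419.ST
open Pool.Agent.Y696.CTK (ED)
open Pool.Agent.TH841.SH.D (Gal)

open scoped Classical

section

variable {K : Type} [Field K] {L : Type} [Field L] [Algebra K L] {n : ℕ}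

lemma near_rat {D : Fin n → ℕ} (S : Set (MvPolynomial (Fin n × Fin 3) K))
    (h27 : ∀ i, D i % 9 ≠ 2 ∧ D i % 9 ≠ 7)
    (P : (i : Fin n) → ((ED (D i : K)).baseChange L).toAffine.Point)
    (hP : OnX S (fun i => crd (P i)))
    (h : ∃ y : (i : Fin n) → ((ED (D i : K)).baseChange K).toAffine.Point,
      ∀ i, NearT (D i) L (P i) (y i)) :
    ∃ y : (i : Fin n) → ((ED (D i : K)).baseChange K).toAffine.Point,
      OnX S (fun i => crd (y i)) ∧ ∀ i, P i = pm (ED (D i : K)) (Algebra.ofId K L) (y i) := by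
  obtain ⟨y, hy⟩ := h
  have h1 : ∀ i, P i = pm (ED (D i : K)) (Algebra.ofId K L) (y i) := fun i =>
    (hy i).2 (h27 i).1 (h27 i).2
  have h2 : P = fun i => pm (ED (D i : K)) (Algebra.ofId K L) (y i) := funext h1
  rw [h2] at hP
  exact ⟨y, (onX_pm _ S y L).1 hP, h1⟩

lemma pt3_map (D : ℕ) (c j : Fin 3) : algebraMap K L (pt3 K D c j) = pt3 L D c j := by
  fin_cases c <;> fin_cases j <;> simp [pt3]

lemma near_pts {D : Fin n → ℕ}
    (hpts : ∀ i, ∀ y : ((ED (D i : K)).baseChange K).toAffine.Point, ∃ c, crd y = pt3 K (D i) c)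
    (P : (i : Fin n) → ((ED (D i : K)).baseChange L).toAffine.Point)
    (h : ∃ y : (i : Fin n) → ((ED (D i : K)).baseChange K).toAffine.Point,
      ∀ i, NearT (D i) L (P i) (y i)) :
    ∃ c : Fin n → Fin 3, ∀ i, ∃ z : ((ED (D i : K)).baseChange L).toAffine.Point,
      crd z = pt3 L (D i) (c i) ∧ 2 • P i = 2 • z ∧ (D i % 9 ≠ 2 → D i % 9 ≠ 7 → P i = z) := by
  obtain ⟨y, hy⟩ := h
  choose c hc using fun i => hpts i (y i)
  refine ⟨c, fun i => ⟨pm (ED (D i : K)) (Algebra.ofId K L) (y i), ?_, (hy i).1, (hy i).2⟩⟩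
  funext j
  rw [crd_pm', hc i]
  exact pt3_map (D i) (c i) j

end

/-! ### over the rational numbers -/

section

variable {n : ℕ} {D : Fin n → ℕ}

/-- **The surviving 3-adic points are the rational points.** -/
theorem survQ (hD : ∀ i, ¬ 3 ∣ D i) (h27 : ∀ i, D i % 9 ≠ 2 ∧ D i % 9 ≠ 7)
    (hfin : ∀ i, Finite (ED (D i : ℚ)).toAffine.Point) (hsha : ∀ i, Sha3Q (ED (D i : ℚ)))
    (S : Set (MvPolynomial (Fin n × Fin 3) ℚ))
    (P : (i : Fin n) → ((ED (D i : ℚ)).baseChange ℚ_[3]).toAffine.Point)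
    (hP : OnX S (fun i => crd (P i))) :
    (∀ k : ℕ, ∃ ξ ∈ SelSetQ (fun i => ED (D i : ℚ)) S (3 ^ k),
      CovAt (fun i => ED (D i : ℚ)) (3 ^ k) ξ ℚ_[3] P) ↔
    ∃ y : (i : Fin n) → ((ED (D i : ℚ)).baseChange ℚ).toAffine.Point,
      OnX S (fun i => crd (y i)) ∧ ∀ i j, crd (P i) j = algebraMap ℚ ℚ_[3] (crd (y i) j) := by
  constructor
  · intro h
    obtain ⟨y, hy, h1⟩ := near_rat S h27 P hP (thmQ1 hD hfin hsha S P h)
    refine ⟨y, hy, fun i j => ?_⟩
    rw [h1 i, crd_pm']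
    rfl
  · rintro ⟨y, hy, h1⟩ k
    have hD0 : ∀ i, D i ≠ 0 := fun i h0 => hD i (h0 ▸ dvd_zero 3)
    have h2 : P = fun i => pm (ED (D i : ℚ)) (Algebra.ofId ℚ ℚ_[3]) (y i) := by
      funext i
      apply crd_inj
      funext j
      rw [h1 i j, crd_pm']
      rfl
    obtain ⟨R, hR⟩ := exists_roots hD0 (N := 3 ^ k) (by positivity) y
    refine ⟨fun i σ => act (ED (D i : ℚ)) σ (R i) - R i, ⟨fun i => kum_coc (R i),
      fun i σ => kum_kill (hR i) σ, fun p _ => cov_rational _ S y hy R hR _,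
      cov_rational _ S y hy R hR _⟩, ?_⟩
    rw [h2]
    exact covAt_rational _ y R hR _

/-- **Finite descent decides whether there are rational points.** -/
theorem emptyQ (hD : ∀ i, ¬ 3 ∣ D i) (h27 : ∀ i, D i % 9 ≠ 2 ∧ D i % 9 ≠ 7)
    (hfin : ∀ i, Finite (ED (D i : ℚ)).toAffine.Point) (hsha : ∀ i, Sha3Q (ED (D i : ℚ)))
    (S : Set (MvPolynomial (Fin n × Fin 3) ℚ)) (hS : ∀ f ∈ S, ∃ d, MultiHom d f) :
    (∃ y : (i : Fin n) → ((ED (D i : ℚ)).baseChange ℚ).toAffine.Point,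
      OnX S (fun i => crd (y i))) ↔
    ∀ k : ℕ, (SelSetQ (fun i => ED (D i : ℚ)) S (3 ^ k)).Nonempty := by
  have hD0 : ∀ i, D i ≠ 0 := fun i h0 => hD i (h0 ▸ dvd_zero 3)
  constructor
  · rintro ⟨y, hy⟩ k
    exact sel_nonemptyQ hD0 S (by positivity) y hy
  · intro h
    obtain ⟨P, hP, h1⟩ := thmQ2 hD hfin hsha S hS h
    obtain ⟨y, hy, -⟩ := near_rat S h27 P hP h1
    exact ⟨y, hy⟩

end

/-! ### over number fields -/

section

variable {K : Type} [Field K] [NumberField K] {n : ℕ} {D : Fin n → ℕ}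

/-- **The surviving points at a place above three are the rational points.** -/
theorem survT (hD : ∀ i, ¬ 3 ∣ D i) (h27 : ∀ i, D i % 9 ≠ 2 ∧ D i % 9 ≠ 7) (s : ℕ)
    (hfin : ∀ i, Finite (ED (D i : K)).toAffine.Point) (hsha : ∀ i, Kill (ED (D i : K)) s)
    (S : Set (MvPolynomial (Fin n × Fin 3) K))
    (v : HeightOneSpectrum (𝓞 K)) (h3 : Three (v.adicCompletion K)) (hT : Tors (v.adicCompletion K))
    (P : (i : Fin n) → ((ED (D i : K)).baseChange (v.adicCompletion K)).toAffine.Point)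
    (hP : OnX S (fun i => crd (P i))) :
    (∀ k : ℕ, ∃ ξ ∈ SelSet (fun i => ED (D i : K)) S (3 ^ k),
      CovAt (fun i => ED (D i : K)) (3 ^ k) ξ (v.adicCompletion K) P) ↔
    ∃ y : (i : Fin n) → ((ED (D i : K)).baseChange K).toAffine.Point,
      OnX S (fun i => crd (y i)) ∧
        ∀ i j, crd (P i) j = algebraMap K (v.adicCompletion K) (crd (y i) j) := by
  constructor
  · intro h
    obtain ⟨y, hy, h1⟩ := near_rat S h27 P hP (thmT1 hD s hfin hsha S v h3 hT P h)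
    refine ⟨y, hy, fun i j => ?_⟩
    rw [h1 i, crd_pm']
    rfl
  · rintro ⟨y, hy, h1⟩ k
    have hD0 : ∀ i, D i ≠ 0 := fun i h0 => hD i (h0 ▸ dvd_zero 3)
    have h2 : P = fun i => pm (ED (D i : K)) (Algebra.ofId K (v.adicCompletion K)) (y i) := by
      funext i
      apply crd_inj
      funext j
      rw [h1 i j, crd_pm']
      rfl
    obtain ⟨R, hR⟩ := exists_roots hD0 (N := 3 ^ k) (by positivity) y
    refine ⟨fun i σ => act (ED (D i : K)) σ (R i) - R i, ⟨fun i => kum_coc (R i),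
      fun i σ => kum_kill (hR i) σ, fun p => cov_rational _ S y hy R hR _,
      fun w => cov_rational _ S y hy R hR _⟩, ?_⟩
    rw [h2]
    exact covAt_rational _ y R hR _

/-- **Finite descent decides whether there are rational points.** -/
theorem emptyT (hD : ∀ i, ¬ 3 ∣ D i) (h27 : ∀ i, D i % 9 ≠ 2 ∧ D i % 9 ≠ 7) (s : ℕ)
    (hfin : ∀ i, Finite (ED (D i : K)).toAffine.Point) (hsha : ∀ i, Kill (ED (D i : K)) s)
    (S : Set (MvPolynomial (Fin n × Fin 3) K)) (hS : ∀ f ∈ S, ∃ d, MultiHom d f)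
    (v : HeightOneSpectrum (𝓞 K)) (h3 : Three (v.adicCompletion K)) (hT : Tors (v.adicCompletion K)) :
    (∃ y : (i : Fin n) → ((ED (D i : K)).baseChange K).toAffine.Point,
      OnX S (fun i => crd (y i))) ↔
    ∀ k : ℕ, (SelSet (fun i => ED (D i : K)) S (3 ^ k)).Nonempty := by
  have hD0 : ∀ i, D i ≠ 0 := fun i h0 => hD i (h0 ▸ dvd_zero 3)
  constructor
  · rintro ⟨y, hy⟩ k
    exact sel_nonempty hD0 S (by positivity) y hy
  · intro h
    obtain ⟨P, hP, h1⟩ := thmT2 hD s hfin hsha S hS v h3 hT h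
    obtain ⟨y, hy, -⟩ := near_rat S h27 P hP h1
    exact ⟨y, hy⟩

end

end Pool.Agent.U188.CT
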