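import Pool.Agent.U188.CT.Loc
import Pool.Agent.R419.ST.Main

/-!
# Three-power descent on closed subvarieties of products of the curves `y² + D y = x³`: the general part
-/

set_option autoImplicit false
set_option linter.all false

open WeierstrassCurve MvPolynomial Filter Topology

namespace Pool.Agent.U188.CT

open Pool.Agent.TH954
open Pool.Agent.R419.ST
open Pool.Agent.Y696.CTK (ED)

open scoped Classical

/-! ### local points of order prime to three -/

section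

variable {L : Type} [NormedField L] [IsUltrametricDist L]

lemma Three.nat_le (h : Three L) (D : ℕ) : ‖(D : L)‖ ≤ 1 := by
  by_cases h0 : D = 0
  · rw [h0]; simp
  · obtain ⟨k, hk⟩ := h.int (m := (D : ℤ)) (by exact_mod_cast h0)
    rw [Int.cast_natCast] at hk
    rw [hk]
    exact pow_le_one₀ (norm_nonneg _) h.lt.le

lemma Three.dvd_nine (h : Three L) {m : ℤ} (hm : ‖(m : L)‖ ≤ ‖(9 : L)‖) : (9 : ℤ) ∣ m := by
  by_cases h0 : m = 0
  · rw [h0]; exact dvd_zero _
  obtain ⟨a, u, hu, hmu⟩ := Nat.exists_eq_pow_mul_and_not_dvd (Int.natAbs_ne_zero.2 h0) 3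
    (by norm_num)
  have h1 : ‖(u : L)‖ = 1 := by
    have := h.unit (u : ℤ) (by exact_mod_cast hu)
    exact_mod_cast this
  have h2 : ‖(m : L)‖ = ‖((m.natAbs : ℕ) : L)‖ := by
    rcases Int.natAbs_eq m with h3 | h3
    · nth_rewrite 1 [h3]
      rw [Int.cast_natCast]
    · nth_rewrite 1 [h3]
      rw [Int.cast_neg, Int.cast_natCast, norm_neg]
  have h3 : ‖(m : L)‖ = ‖(3 : L)‖ ^ a := by
    rw [h2, hmu]
    push_cast
    rw [norm_mul, norm_pow, h1, mul_one]
  have h9 : ‖(9 : L)‖ = ‖(3 : L)‖ ^ 2 := by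
    rw [← norm_pow]
    norm_num
  rw [h3, h9] at hm
  have ha : 2 ≤ a := by
    by_contra hcon
    have h4 : ‖(3 : L)‖ ^ 2 < ‖(3 : L)‖ ^ a :=
      pow_lt_pow_right_of_lt_one₀ h.pos h.lt (by omega)
    linarith
  have h5 : 9 ∣ m.natAbs := by
    rw [hmu]
    exact Dvd.dvd.mul_right (show 9 ∣ 3 ^ a from pow_dvd_pow 3 ha) u
  exact Int.natCast_dvd.2 (by exact_mod_cast h5)

lemma Three.a6 (h : Three L) (D : ℕ) :
    ‖(D : L) ^ 2 / 4 - 1‖ = ‖(((D : ℤ) ^ 2 - 4 : ℤ) : L)‖ := by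
  have h4 : (4 : L) ≠ 0 := h.th.four_ne
  have e : (D : L) ^ 2 / 4 - 1 = (((D : ℤ) ^ 2 - 4 : ℤ) : L) / 4 := by
    push_cast
    field_simp
  rw [e, norm_div, h.th.four, div_one]

lemma Three.a6_lt (h : Three L) {D : ℕ} (hD : ¬ 3 ∣ D) : ‖(D : L) ^ 2 / 4 - 1‖ < 1 := by
  rw [h.a6]
  have h1 : (D : ℤ) % 3 = 1 ∨ (D : ℤ) % 3 = 2 := by omega
  obtain ⟨c, hc⟩ : (3 : ℤ) ∣ (D : ℤ) ^ 2 - 4 := by
    rcases h1 with h1 | h1
    · have : ((D : ℤ) ^ 2) % 3 = 1 := by
        rw [pow_two, Int.mul_emod, h1]; rfl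
      omega
    · have : ((D : ℤ) ^ 2) % 3 = 1 := by
        rw [pow_two, Int.mul_emod, h1]; rfl
      omega
  rw [hc]
  push_cast
  rw [norm_mul]
  have hc1 : ‖(c : L)‖ ≤ 1 := by
    by_cases hc0 : c = 0
    · rw [hc0]; simp
    · obtain ⟨k, hk⟩ := h.int hc0
      rw [hk]
      exact pow_le_one₀ (norm_nonneg _) h.lt.le
  nlinarith [h.pos, h.lt, norm_nonneg (c : L)]

lemma nine_sq {D : ℕ} (hD : ¬ 3 ∣ D) (h : (9 : ℤ) ∣ (D : ℤ) ^ 2 - 4) : D % 9 = 2 ∨ D % 9 = 7 := by
  obtain ⟨q, r, hr, hDq⟩ : ∃ q r : ℕ, r < 9 ∧ D = 9 * q + r := ⟨D / 9, D % 9,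
    Nat.mod_lt _ (by norm_num), (Nat.div_add_mod D 9).symm⟩
  have h5 : (9 : ℤ) ∣ (r : ℤ) ^ 2 - 4 := by
    have e : (D : ℤ) ^ 2 - 4 = 9 * (9 * q ^ 2 + 2 * q * r) + ((r : ℤ) ^ 2 - 4) := by
      rw [hDq]
      push_cast
      ring
    rw [e] at h
    exact (Int.dvd_add_right (dvd_mul_right _ _)).1 h
  have h6 : D % 9 = r := by omega
  rw [h6]
  have h7 : ¬ 3 ∣ r := by omega
  interval_cases r <;> first | omega | (exfalso; revert h5; decide)

/-- the points of order prime to three are points of order two, and there are none if `D` is not `±2`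
modulo `9` -/
def Tors (L : Type) [NormedField L] : Prop := ∀ (D : ℕ), ¬ 3 ∣ D → ∀ (V : WeierstrassCurve L),
  V = WE (D : L) → ∀ (T : V.toAffine.Point) (m : ℕ), ¬ 3 ∣ m → m • T = 0 →
    2 • T = 0 ∧ (T ≠ 0 → D % 9 = 2 ∨ D % 9 = 7)

lemma tors_isLoc [ProperSpace L] {lam : L} (h : Three L) (hL : IsLoc lam) : Tors L := by
  intro D hD V hV T m hm h0
  obtain ⟨h1, h2⟩ := two_V hL hV (h.nat_le D) (h.a6_lt hD) hm h0
  refine ⟨h1, fun hT => nine_sq hD (h.dvd_nine ?_)⟩
  rw [← h.a6]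
  exact h2 hT

/-- the field of the 3-adic numbers -/
lemma tors_Q [ProperSpace L] (h : Three L) (hres : Res L) (hdisc : ∀ x : L, ‖x‖ < 1 → ‖x‖ ≤ ‖(3 : L)‖) : Tors L := by
  intro D hD V hV T m hm h0
  subst hV
  obtain ⟨h1, h2⟩ := two_ofQ h.th hres hdisc (si_WS h.th (h.nat_le D)) rfl (h.a6_lt hD)
    (T := isoS h.th.two_ne (D : L) T) ⟨m, hm, by rw [← map_nsmul, h0, map_zero]⟩
  refine ⟨?_, fun hT => nine_sq hD (h.dvd_nine ?_)⟩
  · apply (isoS h.th.two_ne (D : L)).injective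
    rw [map_nsmul, map_zero]
    exact h1
  · rw [← h.a6]
    refine h2 fun h3 => hT ?_
    apply (isoS h.th.two_ne (D : L)).injective
    rw [map_zero]
    exact h3

end

/-! ### global part -/

section

variable {K : Type} [Field K] [CharZero K]

lemma base_EDN (L : Type) [Field L] [Algebra K L] (D : ℕ) :
    (ED (D : K)).baseChange L = WE (D : L) := by
  show (ED (D : K)).map (algebraMap K L) = _
  simp [ED, WE, WeierstrassCurve.map]

/-- the rational point which belongs to a cocycle which is a coboundary up to the factor `3 ^ s` -/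
theorem coc_gen {E : WeierstrassCurve K} (k s : ℕ)
    (ξ : (AlgebraicClosure K ≃ₐ[K] AlgebraicClosure K) → AlgPt E K)
    (hk : ∀ σ, 3 ^ (k + s) • ξ σ = 0) (R : AlgPt E K)
    (hR' : ∀ σ, 3 ^ s • ξ σ = act E σ R - R) :
    ∃ y : (E.baseChange K).toAffine.Point, incl E K y = 3 ^ k • R := by
  refine exists_of_fixed (L := K) (3 ^ k • R) fun σ => ?_
  have e1 : act E σ R = R + 3 ^ s • ξ σ := by
    rw [hR' σ]
    abel
  have e2 : 3 ^ k • (3 ^ s • ξ σ) = 0 := by
    rw [← mul_smul, ← pow_add]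
    exact hk σ
  rw [act_nsmul, e1, ns_add, e2, add_zero]

/-- a point over `L` which lifts to the covering of `ξ` differs from the rational point belonging to `ξ`
by a point divisible by `3 ^ k` -/
theorem shift_gen {E : WeierstrassCurve K} (k s : ℕ)
    {ξ : (AlgebraicClosure K ≃ₐ[K] AlgebraicClosure K) → AlgPt E K} {R : AlgPt E K}
    {y : (E.baseChange K).toAffine.Point} (hy : incl E K y = 3 ^ k • R)
    (hR : ∀ σ, 3 ^ s • ξ σ = act E σ R - R) {L : Type} [Field L] [CharZero L] [Algebra K L]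
    (ι : AlgebraicClosure K →ₐ[K] AlgebraicClosure L) {P : (E.baseChange L).toAffine.Point}
    {Q : AlgPt E L} (hPQ : 3 ^ (k + s) • Q = incl E L P)
    (hQ : ∀ σ τ, Compat ι σ τ → pm E ι (ξ τ) = act E σ Q - Q) :
    ∃ z : (E.baseChange L).toAffine.Point, P = pm E (Algebra.ofId K L) y + 3 ^ k • z := by
  have hfix : ∀ σ : AlgebraicClosure L ≃ₐ[L] AlgebraicClosure L,
      act E σ (3 ^ s • Q - pm E ι R) = 3 ^ s • Q - pm E ι R := by
    intro σ
    obtain ⟨τ, hτ⟩ := exists_compat ι σ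
    have e1 : act E σ (3 ^ s • Q) = 3 ^ s • Q + pm E ι (3 ^ s • ξ τ) := by
      have e0 : pm E ι (3 ^ s • ξ τ) = 3 ^ s • pm E ι (ξ τ) := map_nsmul _ _ _
      rw [e0, hQ σ τ hτ, act_nsmul, ns_sub]
      abel
    have e2 : act E τ R = R + 3 ^ s • ξ τ := by
      rw [hR τ]
      abel
    rw [act_sub, act_pm ι hτ, e1, e2, map_add]
    abel
  obtain ⟨z, hz⟩ := exists_of_fixed _ hfix
  refine ⟨z, incl_injective ?_⟩
  have e3 : pm E ι (3 ^ k • R) = 3 ^ k • pm E ι R := map_nsmul _ _ _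
  have e4 : incl E L (pm E (Algebra.ofId K L) y) = pm E ι (incl E K y) := by
    unfold incl
    rw [pm_pm, pm_pm]
    congr 2
    apply AlgHom.ext
    intro z
    exact (((IsScalarTower.toAlgHom K L (AlgebraicClosure L)).comp (Algebra.ofId K L)).commutes z).trans
      ((ι.comp (IsScalarTower.toAlgHom K K (AlgebraicClosure K))).commutes z).symm
  have e5 : incl E L (pm E (Algebra.ofId K L) y + 3 ^ k • z) =
      incl E L (pm E (Algebra.ofId K L) y) + incl E L (3 ^ k • z) := map_add (pm E _) _ _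
  have e6 : 3 ^ k • (3 ^ s • Q) = incl E L P := by
    rw [← mul_smul, ← pow_add]
    exact hPQ
  rw [e5, incl_nsmul, hz, ns_sub, e6, ← e3, e4, hy]
  abel

/-- the conclusion for one component -/
def NearT (D : ℕ) (L : Type) [Field L] [Algebra K L]
    (P : ((ED (D : K)).baseChange L).toAffine.Point)
    (y : ((ED (D : K)).baseChange K).toAffine.Point) : Prop :=
  2 • P = 2 • pm (ED (D : K)) (Algebra.ofId K L) y ∧
    (D % 9 ≠ 2 → D % 9 ≠ 7 → P = pm (ED (D : K)) (Algebra.ofId K L) y)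

variable {L : Type} [NormedField L] [IsUltrametricDist L] [Algebra K L]

lemma near_T {D : ℕ} (hD : ¬ 3 ∣ D) (hT : Tors L)
    {P : ((ED (D : K)).baseChange L).toAffine.Point}
    {y : ((ED (D : K)).baseChange K).toAffine.Point} {m : ℕ} (hm : ¬ 3 ∣ m)
    (h : m • (P - pm (ED (D : K)) (Algebra.ofId K L) y) = 0) :
    NearT D L P y := by
  obtain ⟨h1, h2⟩ := hT D hD _ (base_EDN L D) _ m hm h
  refine ⟨?_, fun h4 h5 => ?_⟩
  · rw [smul_sub, sub_eq_zero] at h1
    exact h1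
  · by_contra hne
    rcases h2 (sub_ne_zero.2 hne) with h6 | h6
    · exact h4 h6
    · exact h5 h6

variable {n : ℕ}

/-- one point -/
theorem gen1 [ProperSpace L] (h3 : Three L) (hT : Tors L) {D : Fin n → ℕ} (hD : ∀ i, ¬ 3 ∣ D i)
    (hfin : ∀ i, Finite (ED (D i : K)).toAffine.Point)
    (P : (i : Fin n) → ((ED (D i : K)).baseChange L).toAffine.Point)
    (h : ∀ k : ℕ, ∃ y : (i : Fin n) → ((ED (D i : K)).baseChange K).toAffine.Point, ∀ i, ∃ z,
      P i = pm (ED (D i : K)) (Algebra.ofId K L) (y i) + 3 ^ k • z) :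
    ∃ y : (i : Fin n) → ((ED (D i : K)).baseChange K).toAffine.Point,
      ∀ i, NearT (D i) L (P i) (y i) := by
  have := h3.charZero
  have hfin' : ∀ i, Finite ((ED (D i : K)).baseChange K).toAffine.Point := fun i => hfin i
  have hD0 : ∀ i, (D i : L) ≠ 0 := fun i => by
    have : D i ≠ 0 := by rintro h0; exact hD i (h0 ▸ dvd_zero 3)
    exact_mod_cast this
  let Y : Set ((i : Fin n) → ((ED (D i : K)).baseChange L).toAffine.Point) :=
    Set.range fun (y : (i : Fin n) → ((ED (D i : K)).baseChange K).toAffine.Point) i =>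
      pm (ED (D i : K)) (Algebra.ofId K L) (y i)
  have hY : Y.Finite := Set.finite_range _
  obtain ⟨y', ⟨y, hy⟩, h1⟩ := const_V h3.th (fun i => (D i : L))
    (fun i => h3.nat_le (D i)) hD0 (fun i => (ED (D i : K)).baseChange L)
    (funext fun i => base_EDN L (D i)) Y hY P (fun k => by
      obtain ⟨y, hy⟩ := h k
      exact ⟨_, ⟨y, rfl⟩, hy⟩)
  refine ⟨y, fun i => ?_⟩
  obtain ⟨m, hm, h2⟩ := h1 i
  rw [← hy] at h2
  exact near_T (hD i) hT hm h2

/-- a sequence of points of a closed set -/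
theorem gen2 [ProperSpace L] (h3 : Three L) (hT : Tors L) {D : Fin n → ℕ} (hD : ∀ i, ¬ 3 ∣ D i)
    (hfin : ∀ i, Finite (ED (D i : K)).toAffine.Point)
    (S : Set (MvPolynomial (Fin n × Fin 3) K)) (hS : ∀ f ∈ S, ∃ d, MultiHom d f)
    (h : ∀ k : ℕ, ∃ P : (i : Fin n) → ((ED (D i : K)).baseChange L).toAffine.Point,
      OnX S (fun i => crd (P i)) ∧
      ∃ y : (i : Fin n) → ((ED (D i : K)).baseChange K).toAffine.Point, ∀ i, ∃ z,
        P i = pm (ED (D i : K)) (Algebra.ofId K L) (y i) + 3 ^ k • z) :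
    ∃ P : (i : Fin n) → ((ED (D i : K)).baseChange L).toAffine.Point, OnX S (fun i => crd (P i)) ∧
      ∃ y : (i : Fin n) → ((ED (D i : K)).baseChange K).toAffine.Point,
        ∀ i, NearT (D i) L (P i) (y i) := by
  have := h3.charZero
  have hfin' : ∀ i, Finite ((ED (D i : K)).baseChange K).toAffine.Point := fun i => hfin i
  have hD0 : ∀ i, (D i : L) ≠ 0 := fun i => by
    have : D i ≠ 0 := by rintro h0; exact hD i (h0 ▸ dvd_zero 3)
    exact_mod_cast this
  let Y : Set ((i : Fin n) → ((ED (D i : K)).baseChange L).toAffine.Point) :=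
    Set.range fun (y : (i : Fin n) → ((ED (D i : K)).baseChange K).toAffine.Point) i =>
      pm (ED (D i : K)) (Algebra.ofId K L) (y i)
  have hY : Y.Finite := Set.finite_range _
  let θ : K →+* L := algebraMap K L
  obtain ⟨P, hP, y', ⟨y, hy⟩, h1⟩ := lim_V h3.th (fun i => (D i : L))
    (fun i => h3.nat_le (D i)) hD0 (fun i => (ED (D i : K)).baseChange L)
    (funext fun i => base_EDN L (D i)) {f | ∃ h ∈ S, f = map θ h}
    (by
      rintro f ⟨h, hh, rfl⟩
      obtain ⟨d, hd⟩ := hS h hh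
      exact ⟨d, fun m hm => hd m (MvPolynomial.support_map_subset _ _ hm)⟩) Y hY (fun k => by
      obtain ⟨P, hP, y, hy⟩ := h k
      refine ⟨P, ?_, _, ⟨y, rfl⟩, hy⟩
      rintro f ⟨h, hh, rfl⟩
      have h1 := hP h hh
      rw [aeval_def] at h1
      rw [eval_map]
      exact h1)
  refine ⟨P, ?_, y, fun i => ?_⟩
  · intro f hf
    have h2 := hP (map θ f) ⟨f, hf, rfl⟩
    rw [eval_map] at h2
    rw [aeval_def]
    exact h2
  · obtain ⟨m, hm, h2⟩ := h1 i
    rw [← hy] at h2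
    exact near_T (hD i) hT hm h2

end

end Pool.Agent.U188.CT
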