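import Pool.Agent.R419.ST.Tor

/-!
# Fields in which `ℚ(√-3)` is dense for the 3-adic topology
-/

set_option autoImplicit false
set_option linter.all false

open Filter Topology

namespace Pool.Agent.U188.CT

open Pool.Agent.TH954
open Pool.Agent.R419.ST

open scoped Classical

/-- The integers of the normed field have the 3-adic absolute value. -/
structure Three (L : Type) [NormedField L] : Prop where
  pos : 0 < ‖(3 : L)‖
  lt : ‖(3 : L)‖ < 1
  unit : ∀ m : ℤ, ¬ (3 : ℤ) ∣ m → ‖(m : L)‖ = 1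

section

variable {L : Type} [NormedField L] [IsUltrametricDist L]

lemma Three.charZero (h : Three L) : CharZero L := by
  refine charZero_of_inj_zero fun n hn => ?_
  by_contra h0
  obtain ⟨a, m, hm, hnm⟩ := Nat.exists_eq_pow_mul_and_not_dvd h0 3 (by norm_num)
  have h1 : ‖(m : L)‖ = 1 := by
    have := h.unit (m : ℤ) (by exact_mod_cast hm)
    exact_mod_cast this
  have h2 : ‖(n : L)‖ = ‖(3 : L)‖ ^ a := by
    rw [hnm]
    push_cast
    rw [norm_mul, norm_pow, h1, mul_one]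
  rw [hn, norm_zero] at h2
  exact (pow_pos h.pos a).ne h2

lemma Three.th (h : Three L) : Th L := by
  refine ⟨?_, h.pos, h.lt⟩
  have := h.unit 2 (by norm_num)
  exact_mod_cast this

/-- the norm of an integer -/
lemma Three.int (h : Three L) {m : ℤ} (hm : m ≠ 0) : ∃ k : ℕ, ‖(m : L)‖ = ‖(3 : L)‖ ^ k := by
  obtain ⟨a, u, hu, hmu⟩ := Nat.exists_eq_pow_mul_and_not_dvd (Int.natAbs_ne_zero.2 hm) 3
    (by norm_num)
  refine ⟨a, ?_⟩
  have h1 : ‖(u : L)‖ = 1 := by
    have := h.unit (u : ℤ) (by exact_mod_cast hu)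
    exact_mod_cast this
  have h2 : ‖(m : L)‖ = ‖((m.natAbs : ℕ) : L)‖ := by
    rcases Int.natAbs_eq m with h3 | h3
    · nth_rewrite 1 [h3]
      rw [Int.cast_natCast]
    · nth_rewrite 1 [h3]
      rw [Int.cast_neg, Int.cast_natCast, norm_neg]
  rw [h2, hmu]
  push_cast
  rw [norm_mul, norm_pow, h1, mul_one]

/-- the norm of a rational number -/
lemma Three.rat (h : Three L) {q : ℚ} (hq : q ≠ 0) : ∃ k : ℤ, ‖(q : L)‖ = ‖(3 : L)‖ ^ k := by
  have := h.charZero
  obtain ⟨a, ha⟩ := h.int (m := q.num) (Rat.num_ne_zero.2 hq)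
  obtain ⟨b, hb⟩ := h.int (m := (q.den : ℤ)) (by exact_mod_cast q.den_nz)
  refine ⟨(a : ℤ) - b, ?_⟩
  rw [Rat.cast_def, norm_div, ha]
  have hb' : ‖((q.den : ℕ) : L)‖ = ‖(3 : L)‖ ^ b := by
    rw [← hb, Int.cast_natCast]
  rw [hb', zpow_sub₀ h.pos.ne', zpow_natCast, zpow_natCast]

lemma Three.rat_lt (h : Three L) {q : ℚ} (hq : ‖(q : L)‖ < 1) : ‖(q : L)‖ ≤ ‖(3 : L)‖ := by
  by_cases h0 : q = 0
  · rw [h0, Rat.cast_zero, norm_zero]
    exact h.pos.le
  · obtain ⟨k, hk⟩ := h.rat h0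
    rw [hk] at hq ⊢
    have hk1 : 1 ≤ k := by
      by_contra hcon
      have h1 : ‖(3 : L)‖ ^ (0 : ℤ) ≤ ‖(3 : L)‖ ^ k :=
        zpow_le_zpow_right_of_le_one₀ h.pos h.lt.le (by omega)
      rw [zpow_zero] at h1
      linarith
    have h1 : ‖(3 : L)‖ ^ k ≤ ‖(3 : L)‖ ^ (1 : ℤ) :=
      zpow_le_zpow_right_of_le_one₀ h.pos h.lt.le hk1
    rwa [zpow_one] at h1

/-- residues of rational numbers -/
lemma Three.rat_res (h : Three L) {q : ℚ} (hq : ‖(q : L)‖ ≤ 1) :
    ‖(q : L)‖ < 1 ∨ ‖(q : L) - 1‖ < 1 ∨ ‖(q : L) + 1‖ < 1 := by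
  have := h.charZero
  have hden : ¬ (3 : ℤ) ∣ (q.den : ℤ) := by
    intro hd
    have hnum : ¬ (3 : ℤ) ∣ q.num := by
      intro hn
      have h1 : 3 ∣ q.num.natAbs := Int.natCast_dvd.1 (by exact_mod_cast hn)
      have h2 : 3 ∣ q.den := by exact_mod_cast hd
      have h3 := Nat.dvd_gcd h1 h2
      rw [q.reduced] at h3
      norm_num at h3
    have h1 := h.unit _ hnum
    obtain ⟨c, hc⟩ := hd
    have h2 : ‖((q.den : ℕ) : L)‖ < 1 := by
      have e : ((q.den : ℕ) : L) = 3 * (c : L) := by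
        have : (((q.den : ℕ) : ℤ) : L) = ((3 * c : ℤ) : L) := by rw [hc]
        push_cast at this
        exact this
      rw [e, norm_mul]
      have hc1 : ‖(c : L)‖ ≤ 1 := by
        by_cases hc0 : c = 0
        · rw [hc0]; simp
        · obtain ⟨k, hk⟩ := h.int hc0
          rw [hk]
          exact pow_le_one₀ (norm_nonneg _) h.lt.le
      nlinarith [h.pos, h.lt, norm_nonneg (c : L)]
    rw [Rat.cast_def, norm_div, h1, div_le_one] at hq
    · linarith
    · rw [norm_pos_iff]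
      exact_mod_cast q.den_nz
  have hdn : ‖((q.den : ℕ) : L)‖ = 1 := by
    have := h.unit _ hden
    exact_mod_cast this
  have key : ∀ ε : ℤ, (3 : ℤ) ∣ q.num - ε * q.den → ‖(q : L) - (ε : L)‖ < 1 := by
    intro ε hε
    obtain ⟨c, hc⟩ := hε
    have hd0 : ((q.den : ℕ) : L) ≠ 0 := by exact_mod_cast q.den_nz
    have e : (q : L) - (ε : L) = 3 * (c : L) / ((q.den : ℕ) : L) := by
      rw [Rat.cast_def, eq_div_iff hd0, sub_mul, div_mul_cancel₀ _ hd0]
      have : ((q.num - ε * q.den : ℤ) : L) = ((3 * c : ℤ) : L) := by rw [hc]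
      push_cast at this
      exact this
    rw [e, norm_div, hdn, div_one, norm_mul]
    have hc1 : ‖(c : L)‖ ≤ 1 := by
      by_cases hc0 : c = 0
      · rw [hc0]; simp
      · obtain ⟨k, hk⟩ := h.int hc0
        rw [hk]
        exact pow_le_one₀ (norm_nonneg _) h.lt.le
    nlinarith [h.pos, h.lt, norm_nonneg (c : L)]
  have h1 : (q.num % 3 = 0) ∨ (q.num - (q.den : ℤ)) % 3 = 0 ∨ (q.num + (q.den : ℤ)) % 3 = 0 := by
    have h5 : q.num % 3 = 0 ∨ q.num % 3 = 1 ∨ q.num % 3 = 2 := by omega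
    have h6 : (q.den : ℤ) % 3 = 1 ∨ (q.den : ℤ) % 3 = 2 := by omega
    rcases h5 with h5 | h5 | h5 <;> rcases h6 with h6 | h6 <;> omega
  rcases h1 with h1 | h1 | h1
  · left
    have := key 0 (by simpa using Int.dvd_of_emod_eq_zero h1)
    simpa using this
  · right; left
    have := key 1 (by simpa using Int.dvd_of_emod_eq_zero h1)
    simpa using this
  · right; right
    have := key (-1) (by
      have := Int.dvd_of_emod_eq_zero h1
      have e : q.num - (-1) * (q.den : ℤ) = q.num + q.den := by ring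
      rw [e]
      exact this)
    simpa using this

/-- The subfield `ℚ(√-3)` -/
def quad (L : Type) [Field L] [CharZero L] (lam : L) (hl : lam ^ 2 = -3) : Subfield L where
  carrier := {x | ∃ s t : ℚ, x = s + t * lam}
  mul_mem' := by
    rintro _ _ ⟨s, t, rfl⟩ ⟨s', t', rfl⟩
    refine ⟨s * s' - 3 * t * t', s * t' + t * s', ?_⟩
    push_cast
    linear_combination (t * t' : L) * hl
  one_mem' := ⟨1, 0, by simp⟩
  add_mem' := by
    rintro _ _ ⟨s, t, rfl⟩ ⟨s', t', rfl⟩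
    refine ⟨s + s', t + t', ?_⟩
    push_cast
    ring
  zero_mem' := ⟨0, 0, by simp⟩
  neg_mem' := by
    rintro _ ⟨s, t, rfl⟩
    refine ⟨-s, -t, ?_⟩
    push_cast
    ring
  inv_mem' := by
    rintro _ ⟨s, t, rfl⟩
    by_cases h0 : s ^ 2 + 3 * t ^ 2 = 0
    · have hs : s = 0 := by nlinarith [sq_nonneg s, sq_nonneg t]
      have ht : t = 0 := by nlinarith [sq_nonneg s, sq_nonneg t]
      refine ⟨0, 0, ?_⟩
      rw [hs, ht]
      simp
    · refine ⟨s / (s ^ 2 + 3 * t ^ 2), -t / (s ^ 2 + 3 * t ^ 2), ?_⟩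
      have h1 : ((s : L) ^ 2 + 3 * (t : L) ^ 2) ≠ 0 := by
        have : ((s ^ 2 + 3 * t ^ 2 : ℚ) : L) ≠ 0 := by exact_mod_cast h0
        push_cast at this
        exact this
      have h2 : ((s : L) + t * lam) * (s / (s ^ 2 + 3 * t ^ 2) + -t / (s ^ 2 + 3 * t ^ 2) * lam) = 1 := by
        have e : ((s : L) + t * lam) * (s / (s ^ 2 + 3 * t ^ 2) + -t / (s ^ 2 + 3 * t ^ 2) * lam) =
            ((s : L) ^ 2 - t ^ 2 * lam ^ 2) / (s ^ 2 + 3 * t ^ 2) := by ring
        rw [e, hl, div_eq_one_iff_eq h1]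
        ring
      push_cast
      exact inv_eq_of_mul_eq_one_right h2

/-- **A field in which `ℚ(√-3)` is dense looks like the completion of `ℚ(√-3)` at three.** -/
theorem isLoc_of_dense (h : Three L) {lam : L} (hl : lam ^ 2 = -3)
    (hd : ∀ x : L, ∀ ε : ℝ, 0 < ε → ∃ s t : ℚ, ‖x - ((s : L) + t * lam)‖ < ε) : IsLoc lam := by
  have := h.charZero
  have h3 : ‖(3 : L)‖ = ‖lam‖ ^ 2 := by rw [← norm_pow, hl, norm_neg]
  have hpos : 0 < ‖lam‖ := by
    rw [norm_pos_iff]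
    rintro rfl
    have := h.pos
    rw [h3, norm_zero] at this
    norm_num at this
  have hlt : ‖lam‖ < 1 := by
    by_contra hcon
    rw [not_lt] at hcon
    have h5 : 1 ≤ ‖lam‖ ^ 2 := one_le_pow₀ hcon
    rw [← h3] at h5
    linarith [h.lt]
  -- the values
  have hval : ∀ s t : ℚ, ‖(s : L)‖ ≤ ‖(s : L) + t * lam‖ ∧ ‖(t : L) * lam‖ ≤ ‖(s : L) + t * lam‖ := by
    intro s t
    by_cases hs : s = 0
    · subst hs
      simp only [Rat.cast_zero, zero_add, norm_zero]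
      exact ⟨norm_nonneg _, le_rfl⟩
    by_cases ht : t = 0
    · subst ht
      simp only [Rat.cast_zero, zero_mul, add_zero, norm_zero]
      exact ⟨le_rfl, norm_nonneg _⟩
    obtain ⟨i, hi⟩ := h.rat hs
    obtain ⟨j, hj⟩ := h.rat ht
    have e1 : ‖(s : L)‖ = ‖lam‖ ^ (2 * i) := by
      rw [hi, h3, ← zpow_natCast, ← zpow_mul]
      norm_num
    have e2 : ‖(t : L) * lam‖ = ‖lam‖ ^ (2 * j + 1) := by
      rw [norm_mul, hj, h3, ← zpow_natCast, ← zpow_mul, zpow_add_one₀ hpos.ne']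
      norm_num
    rcases lt_trichotomy (2 * i) (2 * j + 1) with hij | hij | hij
    · have hlt' : ‖(t : L) * lam‖ < ‖(s : L)‖ := by
        rw [e1, e2]
        exact zpow_lt_zpow_right_of_lt_one₀ hpos hlt hij
      rw [uadd_eq hlt']
      exact ⟨le_rfl, hlt'.le⟩
    · omega
    · have hlt' : ‖(s : L)‖ < ‖(t : L) * lam‖ := by
        rw [e1, e2]
        exact zpow_lt_zpow_right_of_lt_one₀ hpos hlt hij
      rw [add_comm, uadd_eq hlt']
      exact ⟨hlt'.le, le_rfl⟩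
  have ht1 : ∀ s t : ℚ, ‖(s : L) + t * lam‖ ≤ 1 → ‖(t : L) * lam‖ ≤ ‖lam‖ := by
    intro s t hst
    by_cases ht : t = 0
    · subst ht
      simp only [Rat.cast_zero, zero_mul, norm_zero]
      exact hpos.le
    obtain ⟨j, hj⟩ := h.rat ht
    have e2 : ‖(t : L) * lam‖ = ‖lam‖ ^ (2 * j + 1) := by
      rw [norm_mul, hj, h3, ← zpow_natCast, ← zpow_mul, zpow_add_one₀ hpos.ne']
      norm_num
    have h5 := (hval s t).2.trans hst
    rw [e2] at h5 ⊢
    have h6 : 0 ≤ 2 * j + 1 := by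
      by_contra hcon
      have h7 : ‖lam‖ ^ (0 : ℤ) < ‖lam‖ ^ (2 * j + 1) :=
        zpow_lt_zpow_right_of_lt_one₀ hpos hlt (by omega)
      rw [zpow_zero] at h7
      linarith
    have h7 : ‖lam‖ ^ (2 * j + 1) ≤ ‖lam‖ ^ (1 : ℤ) :=
      zpow_le_zpow_right_of_le_one₀ hpos hlt.le (by omega)
    rwa [zpow_one] at h7
  refine ⟨h.th.two, hl, hpos, hlt, fun x hx => ?_, fun x hx => ?_⟩
  · obtain ⟨s, t, hst⟩ := hd x ‖lam‖ hpos
    have hy : ‖(s : L) + t * lam‖ < 1 := by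
      have e : (s : L) + t * lam = x - (x - ((s : L) + t * lam)) := by ring
      rw [e]
      exact usub_lt hx (hst.trans hlt)
    have h5 : ‖(s : L) + t * lam‖ ≤ ‖lam‖ := by
      refine uadd ?_ (ht1 s t hy.le)
      have h6 := h.rat_lt ((hval s t).1.trans_lt hy)
      rw [h3] at h6
      nlinarith
    have e : x = (x - ((s : L) + t * lam)) + ((s : L) + t * lam) := by ring
    rw [e]
    exact uadd hst.le h5
  · obtain ⟨s, t, hst⟩ := hd x 1 one_pos
    have hy : ‖(s : L) + t * lam‖ ≤ 1 := by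
      have e : (s : L) + t * lam = x - (x - ((s : L) + t * lam)) := by ring
      rw [e]
      exact usub hx hst.le
    have h5 := (ht1 s t hy).trans_lt hlt
    rcases h.rat_res ((hval s t).1.trans hy) with h6 | h6 | h6
    · left
      have e : x = (x - ((s : L) + t * lam)) + ((s : L) + t * lam) := by ring
      rw [e]
      exact uadd_lt hst (uadd_lt h6 h5)
    · right; left
      have e : x - 1 = (x - ((s : L) + t * lam)) + (((s : L) - 1) + t * lam) := by ring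
      rw [e]
      exact uadd_lt hst (uadd_lt h6 h5)
    · right; right
      have e : x + 1 = (x - ((s : L) + t * lam)) + (((s : L) + 1) + t * lam) := by ring
      rw [e]
      exact uadd_lt hst (uadd_lt h6 h5)

end

section

variable {L : Type} [NormedField L] [IsUltrametricDist L] [CompleteSpace L]

/-- approximate cube roots of `l = 1` modulo `9` -/
def aux (l : ℤ) : ℕ → ℤ
  | 0 => 1
  | n + 1 => aux l n - 3 ^ (n + 1) * ((aux l n ^ 3 - l) / 3 ^ (n + 2))

lemma aux_spec {l : ℤ} (hl : (9 : ℤ) ∣ 1 - l) : ∀ n, (3 : ℤ) ∣ aux l n - 1 ∧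
    (3 : ℤ) ^ (n + 2) ∣ aux l n ^ 3 - l
  | 0 => by
    refine ⟨by simp [aux], ?_⟩
    show (3 : ℤ) ^ 2 ∣ (1 : ℤ) ^ 3 - l
    rw [one_pow]
    exact hl
  | n + 1 => by
    obtain ⟨⟨b, hb⟩, e, he⟩ := aux_spec hl n
    have h1 : (aux l n ^ 3 - l) / 3 ^ (n + 2) = e := by
      rw [he]
      exact Int.mul_ediv_cancel_left _ (by positivity)
    have h2 : aux l (n + 1) = aux l n - 3 ^ (n + 1) * e := by
      show aux l n - 3 ^ (n + 1) * ((aux l n ^ 3 - l) / 3 ^ (n + 2)) = _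
      rw [h1]
    have h3 : aux l n = 1 + 3 * b := by linear_combination hb
    refine ⟨⟨b - 3 ^ n * e, ?_⟩, ?_⟩
    · rw [h2, h3]
      ring
    · refine ⟨-e * (2 * b + 3 * b ^ 2) + 3 ^ n * (aux l n * e ^ 2) - 3 ^ (2 * n) * e ^ 3, ?_⟩
      rw [h2]
      have h4 : aux l n ^ 3 = l + 3 ^ (n + 2) * e := by linear_combination he
      have h5 : (aux l n - 3 ^ (n + 1) * e) ^ 3 - l =
          (aux l n ^ 3 - l) - 3 ^ (n + 2) * (aux l n) ^ 2 * e + 3 ^ (2 * n + 3) * aux l n * e ^ 2 -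
            3 ^ (3 * n + 3) * e ^ 3 := by ring
      rw [h5, he]
      have h6 : (aux l n) ^ 2 = 1 + 3 * (2 * b + 3 * b ^ 2) := by
        rw [h3]
        ring
      rw [h6]
      ring

/-- **Cube roots of `l = 1` modulo `9`**, limits of integers. -/
lemma cube_root (h : Three L) {l : ℕ} (hl : l % 9 = 1) :
    ∃ c : L, c ^ 3 = (l : L) ∧ ∀ ε : ℝ, 0 < ε → ∃ m : ℤ, ‖c - (m : L)‖ < ε := by
  have hl9 : (9 : ℤ) ∣ 1 - (l : ℤ) := by omega
  have hint : ∀ c : ℤ, ‖(c : L)‖ ≤ 1 := by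
    intro c
    by_cases hc0 : c = 0
    · rw [hc0]; simp
    · obtain ⟨k, hk⟩ := h.int hc0
      rw [hk]
      exact pow_le_one₀ (norm_nonneg _) h.lt.le
  have hdvd : ∀ (k : ℕ) (m : ℤ), (3 : ℤ) ^ k ∣ m → ‖(m : L)‖ ≤ ‖(3 : L)‖ ^ k := by
    rintro k m ⟨c, rfl⟩
    push_cast
    rw [norm_mul, norm_pow]
    have := hint c
    have h1 : (0 : ℝ) ≤ ‖(3 : L)‖ ^ k := by positivity
    nlinarith
  have hc : CauchySeq fun n => (aux (l : ℤ) n : L) := by
    refine cauchySeq_of_le_geometric ‖(3 : L)‖ 1 h.lt fun n => ?_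
    rw [one_mul, dist_eq_norm]
    have e : (aux (l : ℤ) n : L) - (aux (l : ℤ) (n + 1) : L) =
        ((3 ^ (n + 1) * ((aux l n ^ 3 - l) / 3 ^ (n + 2)) : ℤ) : L) := by
      rw [← Int.cast_sub]
      congr 1
      show aux (l : ℤ) n - (aux (l : ℤ) n - _) = _
      ring
    rw [e]
    refine (hdvd (n + 1) _ (dvd_mul_right _ _)).trans ?_
    exact pow_le_pow_of_le_one (norm_nonneg _) h.lt.le (Nat.le_succ n)
  obtain ⟨c, hc⟩ := cauchySeq_tendsto_of_complete hc
  refine ⟨c, ?_, fun ε hε => ?_⟩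
  · have h1 : Tendsto (fun n => (aux (l : ℤ) n : L) ^ 3) atTop (𝓝 (c ^ 3)) := hc.pow 3
    have h2 : Tendsto (fun n => (aux (l : ℤ) n : L) ^ 3) atTop (𝓝 (l : L)) := by
      rw [tendsto_iff_norm_sub_tendsto_zero]
      refine squeeze_zero (fun n => norm_nonneg _) (fun n => ?_)
        (tendsto_pow_atTop_nhds_zero_of_lt_one (norm_nonneg _) h.lt)
      have e : (aux (l : ℤ) n : L) ^ 3 - (l : L) = ((aux (l : ℤ) n ^ 3 - (l : ℤ) : ℤ) : L) := by
        push_cast
        ring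
      rw [e]
      refine (hdvd (n + 2) _ (aux_spec hl9 n).2).trans ?_
      exact pow_le_pow_of_le_one (norm_nonneg _) h.lt.le (Nat.le_add_right n 2)
    exact tendsto_nhds_unique h1 h2
  · rw [Metric.tendsto_atTop] at hc
    obtain ⟨N, hN⟩ := hc ε hε
    refine ⟨aux (l : ℤ) N, ?_⟩
    rw [← norm_neg, neg_sub, ← dist_eq_norm]
    exact hN N le_rfl

/-- **`ℚ(√-3)` is dense** in a completion of `ℚ(ω, ∛l : l ∈ M)` if `l = 1` modulo `9` for all `l ∈ M`. -/
theorem dense_of (h : Three L) {F : Type} [Field F] (θ : F →+* L) (hθ : DenseRange θ) {z : F}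
    (hz : z ^ 2 + z + 1 = 0) {M : Finset ℕ} (hM : ∀ l ∈ M, l % 9 = 1) (r : ℕ → F)
    (hr : ∀ l ∈ M, r l ^ 3 = (l : F))
    (hgen : ∀ S : Subfield F, z ∈ S → (∀ l ∈ M, r l ∈ S) → S = ⊤) :
    ∀ x : L, ∀ ε : ℝ, 0 < ε → ∃ s t : ℚ, ‖x - ((s : L) + t * (2 * θ z + 1))‖ < ε := by
  have := h.charZero
  have hz' : θ z ^ 2 + θ z + 1 = 0 := by
    rw [← map_pow, ← map_add, ← map_one θ, ← map_add, hz, map_zero]
  have hl : (2 * θ z + 1) ^ 2 = (-3 : L) := by linear_combination 4 * hz'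
  let T : Subfield L := (quad L (2 * θ z + 1) hl).topologicalClosure
  have hT : (T : Set L) = closure (quad L (2 * θ z + 1) hl : Set L) := rfl
  have hzT : θ z ∈ T := by
    refine subset_closure ?_
    refine ⟨-(1 / 2), 1 / 2, ?_⟩
    push_cast
    ring
  have hcT : ∀ c : L, (∀ ε : ℝ, 0 < ε → ∃ m : ℤ, ‖c - (m : L)‖ < ε) → c ∈ T := by
    intro c hc
    show c ∈ (T : Set L)
    rw [hT, Metric.mem_closure_iff]
    intro ε hε
    obtain ⟨m, hm⟩ := hc ε hε
    refine ⟨(m : L), ⟨m, 0, by push_cast; ring⟩, ?_⟩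
    rw [dist_eq_norm]
    exact hm
  have hrT : ∀ l ∈ M, θ (r l) ∈ T := by
    intro l hlM
    obtain ⟨c, hc3, hc⟩ := cube_root h (hM l hlM)
    have hcT' := hcT c hc
    have hl0 : (l : L) ≠ 0 := by
      have : l ≠ 0 := by
        have := hM l hlM
        omega
      exact_mod_cast this
    have hc0 : c ≠ 0 := by
      rintro rfl
      rw [zero_pow (by norm_num)] at hc3
      exact hl0 hc3.symm
    have hr3 : θ (r l) ^ 3 = (l : L) := by
      rw [← map_pow, hr l hlM, map_natCast]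
    have hu : (θ (r l) - c) * ((θ (r l) - c * θ z) * (θ (r l) + c * (1 + θ z))) = 0 := by
      have e : (θ (r l) - c) * ((θ (r l) - c * θ z) * (θ (r l) + c * (1 + θ z))) =
          θ (r l) ^ 3 - c ^ 3 - (θ z ^ 2 + θ z + 1) * (c ^ 2 * θ (r l) - c ^ 3) := by ring
      rw [e, hr3, hc3, hz']
      ring
    rcases mul_eq_zero.1 hu with h1 | h1
    · rw [sub_eq_zero.1 h1]
      exact hcT'
    · rcases mul_eq_zero.1 h1 with h1 | h1
      · rw [sub_eq_zero.1 h1]
        exact T.mul_mem hcT' hzT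
      · rw [eq_neg_of_add_eq_zero_left h1]
        exact T.neg_mem (T.mul_mem hcT' (T.add_mem T.one_mem hzT))
  have hall : T.comap θ = ⊤ := hgen _ hzT hrT
  have hTall : ∀ x : L, x ∈ T := by
    intro x
    have h1 : Set.range θ ⊆ (T : Set L) := by
      rintro _ ⟨y, rfl⟩
      have : y ∈ T.comap θ := by rw [hall]; trivial
      exact this
    have h2 : IsClosed (T : Set L) := by rw [hT]; exact isClosed_closure
    have h3 : closure (Set.range θ) ⊆ (T : Set L) := h2.closure_subset_iff.2 h1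
    exact h3 (hθ x)
  intro x ε hε
  have h1 : x ∈ closure (quad L (2 * θ z + 1) hl : Set L) := by
    rw [← hT]
    exact hTall x
  rw [Metric.mem_closure_iff] at h1
  obtain ⟨_, ⟨s, t, rfl⟩, hb⟩ := h1 ε hε
  refine ⟨s, t, ?_⟩
  rw [dist_eq_norm] at hb
  exact hb

end

end Pool.Agent.U188.CT
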